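import Pool.Agent.Lib.MP_a304db_al.HC

set_option autoImplicit false

open Matrix Topology Metric MeasureTheory Set
open scoped ENNReal NNReal ComplexConjugate InnerProductSpace

namespace Pool.Agent.Lib.MP_a304db_al

/-- The moments of a weight. -/
noncomputable def II (ρ : ℂ → ℝ≥0∞) (n : ℕ) : ℝ≥0∞ :=
  ∫⁻ z in ball (0 : ℂ) 1, ρ z * ‖z‖ₑ ^ (2 * n)

lemma enorm_en_sq (ρ : ℂ → ℝ≥0∞) [hρ : Fact (Wt ρ)] (n : ℕ) : ‖en ρ n‖ₑ ^ 2 = II ρ n := by
  have h1 : ‖en ρ n‖ₑ = eLpNorm (poly (Polynomial.X ^ n)) 2 (muD ρ) := by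
    have : ‖en ρ n‖ₑ = ‖jm ρ (poly (Polynomial.X ^ n))‖ₑ := rfl
    rw [this, enorm_jm]
  have h2 := eLpNorm_nnreal_pow_eq_lintegral (p := 2) (f := poly (Polynomial.X ^ n))
    (μ := muD ρ) two_ne_zero
  have h3 : (((2 : ℝ≥0) : ℝ≥0∞)) = 2 := rfl
  have h4 : (((2 : ℝ≥0) : ℝ)) = ((2 : ℕ) : ℝ) := by norm_num
  rw [h3, h4, ENNReal.rpow_natCast, ← h1] at h2
  rw [h2]
  have h5 : ∀ z : Dsk, ‖poly (Polynomial.X ^ n) z‖ₑ ^ (((2 : ℕ) : ℝ)) = ‖(z : ℂ)‖ₑ ^ (2 * n) := by
    intro z
    rw [poly_apply, Polynomial.eval_pow, Polynomial.eval_X, enorm_pow, ENNReal.rpow_natCast,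
      ← pow_mul, mul_comm]
  simp only [h5]
  rw [muD, lintegral_subtype_comap isClosed_closedBall.measurableSet
    (fun z : ℂ => ‖z‖ₑ ^ (2 * n)), muC, restrict_withDensity isClosed_closedBall.measurableSet,
    Measure.restrict_restrict isClosed_closedBall.measurableSet,
    inter_eq_right.2 ball_subset_closedBall,
    lintegral_withDensity_eq_lintegral_mul _ hρ.out.meas (by fun_prop)]
  rfl

lemma norm_en_sq (ρ : ℂ → ℝ≥0∞) [hρ : Fact (Wt ρ)] (n : ℕ) :
    ‖en ρ n‖ ^ 2 = (II ρ n).toReal := by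
  rw [← enorm_en_sq, ENNReal.toReal_pow, toReal_enorm]

lemma II_one (n : ℕ) : II 1 n = ENNReal.ofReal (Real.pi / (n + 1)) := by
  have hf : ∫ z : ℂ, (Iio (1 : ℝ)).indicator (fun y => y ^ (2 * n)) ‖z‖ = Real.pi / (n + 1) := by
    rw [integral_fun_norm_addHaar (volume : Measure ℂ)]
    have h1 : ∫ y in Ioi (0 : ℝ), y ^ (Module.finrank ℝ ℂ - 1) •
        (Iio (1 : ℝ)).indicator (fun y => y ^ (2 * n)) y = 1 / (2 * (n + 1)) := by
      rw [Complex.finrank_real_complex]
      have h2 : ∀ y : ℝ, y ^ (2 - 1) • (Iio (1 : ℝ)).indicator (fun y => y ^ (2 * n)) y =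
          (Iio (1 : ℝ)).indicator (fun y => y ^ (2 * n + 1)) y := by
        intro y
        by_cases hy : y ∈ Iio (1 : ℝ)
        · rw [indicator_of_mem hy, indicator_of_mem hy, smul_eq_mul]; ring
        · rw [indicator_of_notMem hy, indicator_of_notMem hy, smul_zero]
      simp only [h2]
      rw [integral_indicator measurableSet_Iio, Measure.restrict_restrict measurableSet_Iio,
        inter_comm, Ioi_inter_Iio, ← integral_Ioc_eq_integral_Ioo,
        ← intervalIntegral.integral_of_le zero_le_one, integral_pow]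
      push_cast
      rw [one_pow, zero_pow (by omega)]
      ring
    rw [h1, Complex.finrank_real_complex]
    have h3 : (volume : Measure ℂ).real (ball 0 1) = Real.pi := by
      rw [measureReal_def, Complex.volume_ball]
      simp
    rw [h3]
    simp only [smul_eq_mul, nsmul_eq_mul]
    field_simp
    push_cast
    ring
  have hind : ∀ z : ℂ, (Iio (1 : ℝ)).indicator (fun y => y ^ (2 * n)) ‖z‖ =
      (ball (0 : ℂ) 1).indicator (fun z => ‖z‖ ^ (2 * n)) z := by
    intro z
    by_cases hz : z ∈ ball (0 : ℂ) 1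
    · rw [indicator_of_mem hz, indicator_of_mem (mem_Iio.2 (mem_ball_zero_iff.1 hz))]
    · rw [indicator_of_notMem hz, indicator_of_notMem]
      intro h
      exact hz (mem_ball_zero_iff.2 (mem_Iio.1 h))
  simp only [hind] at hf
  rw [integral_indicator measurableSet_ball] at hf
  rw [← hf, ofReal_integral_eq_lintegral_ofReal]
  · rw [II]
    refine lintegral_congr fun z => ?_
    rw [Pi.one_apply, one_mul, ENNReal.ofReal_pow (norm_nonneg _), ofReal_norm]
  · refine Measure.integrableOn_of_bounded (M := 1) ?_ ?_ ?_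
    · exact measure_ball_lt_top.ne
    · fun_prop
    · rw [ae_restrict_iff' measurableSet_ball]
      refine Filter.Eventually.of_forall fun z hz => ?_
      rw [norm_pow, norm_norm]
      exact pow_le_one₀ (norm_nonneg _) (mem_ball_zero_iff.1 hz).le
  · exact Filter.Eventually.of_forall fun z => by positivity

end Pool.Agent.Lib.MP_a304db_al
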