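import Mathlib

/-!
# Definitions for the question whether the Sobolev pseudometric is a metric

All notions are spelled out for the real reductive group `SU(1,1)` (isomorphic to `SL(2,R)`),
with maximal compact subgroup `K = S(U(1) x U(1))` and Lie algebra `su(1,1)`.
-/

set_option autoImplicit false

open Matrix Topology
open scoped ENNReal NNReal

namespace Pool.Agent.Lib.MP_a304db_al

/-- Complex two by two matrices. -/
abbrev M2 : Type := Matrix (Fin 2) (Fin 2) ℂ

/-- The matrix `diag(1,-1)` of the hermitian form `|z_1|^2 - |z_2|^2`. -/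
def J : M2 := !![1, 0; 0, -1]

/-- `A` preserves the hermitian form `J`. -/
def PresJ (A : M2) : Prop := Aᴴ * J * A = J

/-- `A` is unitary. -/
def IsUni (A : M2) : Prop := Aᴴ * A = 1

lemma PresJ.one : PresJ 1 := by
  change (1 : M2)ᴴ * J * (1 : M2) = J
  simp

lemma PresJ.mul {a b : M2} (ha : PresJ a) (hb : PresJ b) : PresJ (a * b) := by
  unfold PresJ at *
  calc (a * b)ᴴ * J * (a * b) = bᴴ * (aᴴ * J * a) * b := by
          simp only [Matrix.mul_assoc, conjTranspose_mul]
    _ = J := by rw [ha, hb]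

lemma PresJ.inv {a b : M2} (ha : PresJ a) (h1 : a * b = 1) : PresJ b := by
  unfold PresJ at *
  have h2 : bᴴ * aᴴ = 1 := by rw [← conjTranspose_mul, h1, conjTranspose_one]
  calc bᴴ * J * b = bᴴ * (aᴴ * J * a) * b := by rw [ha]
    _ = (bᴴ * aᴴ) * J * (a * b) := by simp only [Matrix.mul_assoc]
    _ = J := by rw [h1, h2, Matrix.one_mul, Matrix.mul_one]

lemma IsUni.one : IsUni 1 := by
  change (1 : M2)ᴴ * (1 : M2) = 1
  simp

lemma IsUni.mul {a b : M2} (ha : IsUni a) (hb : IsUni b) : IsUni (a * b) := by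
  unfold IsUni at *
  calc (a * b)ᴴ * (a * b) = bᴴ * (aᴴ * a) * b := by
          simp only [Matrix.mul_assoc, conjTranspose_mul]
    _ = 1 := by rw [ha, Matrix.mul_one, hb]

lemma IsUni.inv {a b : M2} (ha : IsUni a) (h1 : a * b = 1) : IsUni b := by
  unfold IsUni at *
  have h2 : bᴴ * aᴴ = 1 := by rw [← conjTranspose_mul, h1, conjTranspose_one]
  calc bᴴ * b = bᴴ * (aᴴ * a) * b := by rw [ha, Matrix.mul_one]
    _ = (bᴴ * aᴴ) * (a * b) := by simp only [Matrix.mul_assoc]
    _ = 1 := by rw [h1, h2, Matrix.one_mul]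

/-- `SU(1,1)` as a subgroup of `SL(2,C)`. -/
def SU11sub : Subgroup (SpecialLinearGroup (Fin 2) ℂ) where
  carrier := {g | PresJ g.1}
  one_mem' := PresJ.one
  mul_mem' := fun {_ _} ha hb => PresJ.mul ha hb
  inv_mem' := fun {a} ha => PresJ.inv ha (congrArg Subtype.val (mul_inv_cancel a))

/-- The group `SU(1,1)`: complex two by two matrices of determinant one that preserve the
form `J`. -/
def SU11 : Type := SU11sub

noncomputable instance : Group SU11 := Subgroup.toGroup SU11sub

noncomputable instance : TopologicalSpace SU11 := (inferInstance : TopologicalSpace SU11sub)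

/-- The underlying complex matrix of an element of `SU(1,1)`. -/
def mat (g : SU11) : M2 := g.1.1

lemma mat_mul (g h : SU11) : mat (g * h) = mat g * mat h := rfl

lemma mat_one : mat 1 = 1 := rfl

lemma mat_mul_inv (g : SU11) : mat g * mat g⁻¹ = 1 := by
  rw [← mat_mul, mul_inv_cancel, mat_one]

lemma mat_inv_mul (g : SU11) : mat g⁻¹ * mat g = 1 := by
  rw [← mat_mul, inv_mul_cancel, mat_one]

/-- The subgroup of the unitary elements of `SU(1,1)`. -/
def Ksub : Subgroup SU11 where
  carrier := {g | IsUni (mat g)}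
  one_mem' := IsUni.one
  mul_mem' := fun {_ _} ha hb => IsUni.mul ha hb
  inv_mem' := fun {a} ha => IsUni.inv ha (mat_mul_inv a)

/-- The maximal compact subgroup `K` of `SU(1,1)`: its unitary elements (these are the
diagonal matrices `diag(u, u⁻¹)` with `|u| = 1`). -/
def K : Type := Ksub

noncomputable instance : Group K := Subgroup.toGroup Ksub

noncomputable instance : TopologicalSpace K := (inferInstance : TopologicalSpace Ksub)

/-- The inclusion of `K` into `SU(1,1)`. -/
def K.toG (k : K) : SU11 := k.1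

instance : CoeOut K SU11 := ⟨K.toG⟩

lemma K.coe_one : ((1 : K) : SU11) = 1 := rfl

lemma K.coe_mul (k l : K) : ((k * l : K) : SU11) = (k : SU11) * (l : SU11) := rfl

lemma K.coe_inv (k : K) : ((k⁻¹ : K) : SU11) = (k : SU11)⁻¹ := rfl

/-- `X` belongs to the Lie algebra `su(1,1)`. -/
def InLie (X : M2) : Prop := Xᴴ * J + J * X = 0 ∧ X.trace = 0

lemma InLie.zero : InLie 0 := by simp [InLie]

lemma InLie.add {a b : M2} (ha : InLie a) (hb : InLie b) : InLie (a + b) := by
  refine ⟨?_, by simp [Matrix.trace_add, ha.2, hb.2]⟩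
  calc (a + b)ᴴ * J + J * (a + b) = (aᴴ * J + J * a) + (bᴴ * J + J * b) := by
        rw [conjTranspose_add]; noncomm_ring
    _ = 0 := by rw [ha.1, hb.1, add_zero]

lemma InLie.smul (c : ℝ) {a : M2} (ha : InLie a) : InLie (c • a) := by
  refine ⟨?_, by simp [Matrix.trace_smul, ha.2]⟩
  calc (c • a)ᴴ * J + J * (c • a) = c • (aᴴ * J + J * a) := by
        rw [conjTranspose_smul, star_trivial, Matrix.smul_mul, Matrix.mul_smul, smul_add]
    _ = 0 := by rw [ha.1, smul_zero]

/-- `su(1,1)` as a real subspace of the complex matrices. -/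
def su11sub : Submodule ℝ M2 where
  carrier := {X | InLie X}
  zero_mem' := InLie.zero
  add_mem' := fun {_ _} ha hb => InLie.add ha hb
  smul_mem' := fun c {_} ha => InLie.smul c ha

/-- The real Lie algebra `su(1,1)` of `SU(1,1)`, a real subspace of the complex matrices
(the bracket is the commutator). -/
def su11 : Type := su11sub

noncomputable instance : AddCommGroup su11 := Submodule.addCommGroup su11sub

noncomputable instance : Module ℝ su11 := Submodule.module su11sub

/-- The underlying matrix of an element of the Lie algebra. -/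
def su11.mx (X : su11) : M2 := X.1

instance : CoeOut su11 M2 := ⟨su11.mx⟩

lemma su11.coe_add (X Y : su11) : ((X + Y : su11) : M2) = (X : M2) + (Y : M2) := rfl

lemma su11.coe_smul (c : ℝ) (X : su11) : ((c • X : su11) : M2) = c • (X : M2) := rfl

lemma su11.coe_zero : ((0 : su11) : M2) = 0 := rfl

set_option backward.isDefEq.respectTransparency false in
open scoped Matrix.Norms.Operator in
lemma hasDerivAt_exp_entry (X : M2) (t : ℝ) (i j : Fin 2) :
    HasDerivAt (fun s : ℝ => NormedSpace.exp (s • X) i j)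
      ((NormedSpace.exp (t • X) * X) i j) t := by
  have h := hasDerivAt_exp_smul_const (𝕂 := ℝ) X t
  exact ((Matrix.entryLinearMap ℝ ℂ i j).toContinuousLinearMap.hasFDerivAt).comp_hasDerivAt t h

set_option backward.isDefEq.respectTransparency false in
open scoped Matrix.Norms.Operator in
lemma exp_neg_mul_exp (X : M2) : NormedSpace.exp (-X) * NormedSpace.exp X = 1 := by
  rw [← NormedSpace.exp_add_of_commute (Commute.neg_left (Commute.refl X))]
  simp

lemma J_mul_J : J * J = 1 := by
  simp [J, Matrix.one_fin_two]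

lemma det_exp_one (X : M2) (h : X.trace = 0) (t : ℝ) :
    (NormedSpace.exp (t • X) : M2).det = 1 := by
  have hd : ∀ s : ℝ, HasDerivAt (fun s : ℝ => (NormedSpace.exp (s • X) : M2).det) 0 s := by
    intro s
    have h00 := hasDerivAt_exp_entry X s 0 0
    have h01 := hasDerivAt_exp_entry X s 0 1
    have h10 := hasDerivAt_exp_entry X s 1 0
    have h11 := hasDerivAt_exp_entry X s 1 1
    have := (h00.mul h11).sub (h01.mul h10)
    simp only [Matrix.det_fin_two]
    convert! this using 1
    rw [Matrix.trace_fin_two] at h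
    have h' : X 1 1 = - X 0 0 := by linear_combination h
    simp only [Matrix.mul_apply, Fin.sum_univ_two, h']
    ring
  have := is_const_of_deriv_eq_zero (f := fun s : ℝ => (NormedSpace.exp (s • X) : M2).det)
    (fun s => (hd s).differentiableAt) (fun s => (hd s).deriv) t 0
  simpa using this

lemma exp_form (X : M2) (h : Xᴴ * J + J * X = 0) : PresJ (NormedSpace.exp X) := by
  unfold PresJ
  have hX : Xᴴ = J * (-X) * J := by
    have : Xᴴ * J = - (J * X) := eq_neg_of_add_eq_zero_left h
    calc Xᴴ = Xᴴ * (J * J) := by rw [J_mul_J, Matrix.mul_one]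
      _ = (Xᴴ * J) * J := by rw [Matrix.mul_assoc]
      _ = J * (-X) * J := by rw [this]; simp
  have hJ : J⁻¹ = J := Matrix.inv_eq_left_inv J_mul_J
  have hu : IsUnit J := by
    rw [Matrix.isUnit_iff_isUnit_det]; simp [J, Matrix.det_fin_two]
  have h1 : (NormedSpace.exp X : M2)ᴴ = J * NormedSpace.exp (-X) * J := by
    rw [← Matrix.exp_conjTranspose, hX]
    nth_rewrite 2 [← hJ]
    rw [Matrix.exp_conj _ _ hu, hJ]
  rw [h1]
  calc J * NormedSpace.exp (-X) * J * J * NormedSpace.exp X
      = J * (NormedSpace.exp (-X) * (J * J) * NormedSpace.exp X) := by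
        simp only [Matrix.mul_assoc]
    _ = J := by rw [J_mul_J, Matrix.mul_one, exp_neg_mul_exp, Matrix.mul_one]

lemma det_exp (X : su11) : (NormedSpace.exp (X : M2)).det = 1 := by
  have := det_exp_one (X : M2) X.2.2 1
  rwa [one_smul] at this

/-- The exponential map from `su(1,1)` to `SU(1,1)`. -/
noncomputable def expG (X : su11) : SU11 :=
  ⟨⟨NormedSpace.exp (X : M2), det_exp X⟩, exp_form (X : M2) X.2.1⟩

/-- The matrix `diag(e^{iθ}, e^{-iθ})`. -/
noncomputable def rotM (θ : ℝ) : M2 :=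
  !![Complex.exp (θ * Complex.I), 0; 0, Complex.exp (-(θ * Complex.I))]

lemma det_rotM (θ : ℝ) : (rotM θ).det = 1 := by
  rw [rotM, Matrix.det_fin_two_of, ← Complex.exp_add]; simp

lemma presJ_rotM (θ : ℝ) : PresJ (rotM θ) := by
  unfold PresJ rotM
  ext i j
  fin_cases i <;> fin_cases j <;>
    simp [J, Matrix.mul_apply, Fin.sum_univ_two, Matrix.conjTranspose, ← Complex.exp_conj,
      ← Complex.exp_add]

lemma isUni_rotM (θ : ℝ) : IsUni (rotM θ) := by
  unfold IsUni rotM
  ext i j
  fin_cases i <;> fin_cases j <;>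
    simp [Matrix.mul_apply, Fin.sum_univ_two, Matrix.conjTranspose, ← Complex.exp_conj,
      ← Complex.exp_add]

/-- The rotation `diag(e^{iθ}, e^{-iθ})`, a typical element of `K`. -/
noncomputable def rot (θ : ℝ) : K := ⟨⟨⟨rotM θ, det_rotM θ⟩, presJ_rotM θ⟩, isUni_rotM θ⟩

section

variable {V : Type} [AddCommGroup V] [Module ℂ V]

/-- `lie` is a representation of the real Lie algebra `su(1,1)` on the complex space `V`. -/
def IsLieAction (lie : su11 → V →ₗ[ℂ] V) : Prop :=
  (∀ X Y v, lie (X + Y) v = lie X v + lie Y v) ∧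
  (∀ (c : ℝ) X v, lie (c • X) v = (c : ℂ) • lie X v) ∧
  ∀ X Y Z : su11, (Z : M2) = (X : M2) * (Y : M2) - (Y : M2) * (X : M2) →
    ∀ v, lie Z v = lie X (lie Y v) - lie Y (lie X v)

/-- `act` is a locally finite and continuous representation of `K` on `V`. -/
def IsKAction (act : K → V →ₗ[ℂ] V) : Prop :=
  (∀ v, act 1 v = v) ∧ (∀ k l v, act (k * l) v = act k (act l v)) ∧
  (∀ v, FiniteDimensional ℂ (Submodule.span ℂ (Set.range fun k => act k v))) ∧
  ∀ (v : V) (φ : V →ₗ[ℂ] ℂ), Continuous fun k => φ (act k v)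

/-- `act` intertwines `lie` with the adjoint action of `K` on `su(1,1)`. -/
def AdCompatible (lie : su11 → V →ₗ[ℂ] V) (act : K → V →ₗ[ℂ] V) : Prop :=
  ∀ (k : K) (X Y : su11), (Y : M2) = mat (k : SU11) * (X : M2) * mat (k : SU11)⁻¹ →
    ∀ v, act k (lie X v) = lie Y (act k v)

/-- On the Lie algebra of `K` (the elements of `su(1,1)` all whose exponentials
`exp(tX)` lie in `K`) `lie` is the differential of `act`. -/
def IsDifferential (lie : su11 → V →ₗ[ℂ] V) (act : K → V →ₗ[ℂ] V) : Prop :=
  ∀ (X : su11) (γ : ℝ → K), (∀ t, (γ t : SU11) = expG (t • X)) →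
    ∀ (v : V) (φ : V →ₗ[ℂ] ℂ), HasDerivAt (fun t => φ (act (γ t) v)) (φ (lie X v)) 0

end

/-- A `(𝔤, K)`-module for `SU(1,1)` on the complex vector space `V`: a representation `lie` of the
real Lie algebra `su(1,1)` and a locally finite, continuous representation `act` of `K`, which
are compatible. -/
structure GKModule (V : Type) [AddCommGroup V] [Module ℂ V] where
  /-- the action of the Lie algebra -/
  lie : su11 → V →ₗ[ℂ] V
  /-- the action of the maximal compact subgroup -/
  act : K → V →ₗ[ℂ] V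
  isLieAction : IsLieAction lie
  isKAction : IsKAction act
  adCompatible : AdCompatible lie act
  isDifferential : IsDifferential lie act

section

variable {V : Type} [AddCommGroup V] [Module ℂ V]

/-- The isotypic component `V[τ_m]` (as a set) of the character
`τ_m : diag(e^{iθ}, e^{-iθ}) ↦ e^{imθ}` of `K`, where `m` is an integer. -/
def GKModule.ktype (M : GKModule V) (m : ℤ) : Set V :=
  {v | ∀ θ : ℝ, M.act (rot θ) v = Complex.exp (m * θ * Complex.I) • v}

/-- `V` is a Harish-Chandra module: it is `K`-admissible (all isotypic components are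
finite-dimensional) and finitely generated over the enveloping algebra (some finite set lies in
no proper complex subspace that is stable under `su(1,1)`). -/
def GKModule.IsHarishChandra (M : GKModule V) : Prop :=
  (∀ m : ℤ, FiniteDimensional ℂ (Submodule.span ℂ (M.ktype m))) ∧
  ∃ S : Set V, S.Finite ∧ ∀ W : Submodule ℂ V, S ⊆ W → (∀ X : su11, ∀ v ∈ W, M.lie X v ∈ W) →
    W = ⊤

section

variable {E : Type} [NormedAddCommGroup E] [NormedSpace ℂ E]

/-- `π` is a continuous representation of `G = SU(1,1)` on the normed space `E`: the map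
`G × E → E` is continuous. -/
def IsContRep (π : SU11 → E →L[ℂ] E) : Prop :=
  (∀ x, π 1 x = x) ∧ (∀ g h x, π (g * h) x = π g (π h x)) ∧
  Continuous fun x : SU11 × E => π x.1 x.2

/-- The vector `x` is `K`-finite. -/
def KFinite (π : SU11 → E →L[ℂ] E) (x : E) : Prop :=
  FiniteDimensional ℂ (Submodule.span ℂ (Set.range fun k : K => π k x))

/-- `ι` is an isometric embedding of `(V, p)` with dense range (so that the Banach space `E` is
the completion of `(V, p)`), `π` is a continuous representation of `G` on `E`, the space of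
`K`-finite vectors is exactly the image of `V`, and the actions of `K` and of the Lie algebra
on it are the given ones. -/
def IsGlobalization (M : GKModule V) (p : Seminorm ℂ V) (ι : V →ₗ[ℂ] E)
    (π : SU11 → E →L[ℂ] E) : Prop :=
  (∀ v, ‖ι v‖ = p v) ∧ DenseRange ι ∧ IsContRep π ∧ (∀ x, KFinite π x ↔ ∃ v, ι v = x) ∧
  (∀ (k : K) (v : V), π k (ι v) = ι (M.act k v)) ∧
  ∀ (X : su11) (v : V), HasDerivAt (fun t : ℝ => π (expG (t • X)) (ι v)) (ι (M.lie X v)) 0

end

/-- A weight: a positive, submultiplicative and locally bounded function on `G`. -/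
def IsWeight (w : SU11 → ℝ) : Prop :=
  (∀ g, 0 < w g) ∧ (∀ g h, w (g * h) ≤ w g * w h) ∧ ∀ g, ∃ B : ℝ, ∀ᶠ h in 𝓝 g, w h ≤ B

/-- `p ∈ Norm(V, w)`: `p` is a `G`-continuous norm on `V` and `p (g v) ≤ C w(g) p(v)` for some
`C > 0` and all `g` in `G`, `v` in `V`. -/
def MemNorm (M : GKModule V) (w : SU11 → ℝ) (p : Seminorm ℂ V) : Prop :=
  (∀ v, p v = 0 → v = 0) ∧
  ∃ (E : Type) (_ : NormedAddCommGroup E) (_ : NormedSpace ℂ E) (_ : CompleteSpace E)
    (ι : V →ₗ[ℂ] E) (π : SU11 → E →L[ℂ] E), IsGlobalization M p ι π ∧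
    ∃ C : ℝ, 0 < C ∧ ∀ (g : SU11) (v : V), ‖π g (ι v)‖ ≤ C * w g * p v

/-- `p ≲ q`: `p ≤ C q` for a constant `C > 0`. -/
def Dominated (p q : V → ℝ) : Prop := ∃ C : ℝ, 0 < C ∧ ∀ v, p v ≤ C * q v

/-- `D s` is the Sobolev operator `D_s` of `V`: it acts on `V[τ_m]` as the scalar
`(1 + c_m)^(s/2)`, where `c_m = m²/8` is the eigenvalue on `V[τ_m]` of the `K`-Laplacian for the
Cartan-Killing form `4 tr(XY)` of `su(1,1)`. -/
def IsSobolev (M : GKModule V) (D : ℝ → V →ₗ[ℂ] V) : Prop :=
  ∀ (s : ℝ) (m : ℤ), ∀ v ∈ M.ktype m, D s v = (((1 + (m : ℝ) ^ 2 / 8) ^ (s / 2) : ℝ) : ℂ) • v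

/-- `d_→(p, q)`: the infimum (in `[0, ∞]`) of all `s ≥ 0` with `p ≲ q_s`, `q_s (v) = q (D_s v)`. -/
noncomputable def dArrow (D : ℝ → V →ₗ[ℂ] V) (p q : V → ℝ) : ℝ≥0∞ :=
  ⨅ (s : ℝ≥0) (_ : Dominated p fun v => q (D s v)), (s : ℝ≥0∞)

/-- The Sobolev pseudodistance `d(p, q)`, the larger of `d_→(p, q)` and `d_→(q, p)`. -/
noncomputable def sobolevDist (D : ℝ → V →ₗ[ℂ] V) (p q : V → ℝ) : ℝ≥0∞ :=
  max (dArrow D p q) (dArrow D q p)

/-- `V` is a Harish-Chandra module, `w` a weight, `p` and `q` lie in `Norm(V, w)`, and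
`d([p], [q]) = 0` although `[p] ≠ [q]`. Here `D` is the (unique) family of Sobolev operators. -/
def IsExample (M : GKModule V) (w : SU11 → ℝ) (D : ℝ → V →ₗ[ℂ] V) (p q : Seminorm ℂ V) : Prop :=
  M.IsHarishChandra ∧ IsWeight w ∧ (IsSobolev M D ∧ ∀ D', IsSobolev M D' → D' = D) ∧
  MemNorm M w p ∧ MemNorm M w q ∧ sobolevDist D p q = 0 ∧ ¬ (Dominated p q ∧ Dominated q p)

end

end Pool.Agent.Lib.MP_a304db_al
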