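import Pool.Agent.Lib.MP_a304db_al.Hilb

set_option autoImplicit false

open Matrix Topology Metric MeasureTheory
open scoped ENNReal NNReal ComplexConjugate

namespace Pool.Agent.Lib.MP_a304db_al

/-- The polynomial vector field of an element of the Lie algebra. -/
noncomputable def vf (X : su11) : Polynomial ℂ :=
  Polynomial.C ((X : M2) 1 0) * Polynomial.X ^ 2 -
    Polynomial.C ((X : M2) 0 0 - (X : M2) 1 1) * Polynomial.X - Polynomial.C ((X : M2) 0 1)

/-- The numerator as a continuous function. -/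
noncomputable def numF (g : SU11) : C(Dsk, ℂ) := mat g 0 0 • idC + mat g 0 1 • 1

lemma denF_eq' (g : SU11) : denF g = mat g 1 0 • idC + mat g 1 1 • 1 := by
  ext z
  simp [denF, den, idC]

lemma mobF_mul_denF (g : SU11) : mobF g * denF g = numF g := by
  ext z
  have h := mob_mul_den g z.norm_le
  rw [ContinuousMap.mul_apply]
  change mobC g z * den g z = _
  rw [h]
  simp [numF, idC]

lemma mobF_eq (g : SU11) : mobF g = numF g * Ring.inverse (denF g) := by
  obtain ⟨u, -, hu⟩ := exists_inv_den g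
  have h1 : IsUnit (denF g) := IsUnit.of_mul_eq_one u (by rw [mul_comm]; exact hu)
  rw [← mobF_mul_denF, mul_assoc, Ring.mul_inverse_cancel _ h1, mul_one]

lemma expG_zero : expG 0 = 1 := by
  apply Subtype.ext
  apply Subtype.ext
  change (NormedSpace.exp ((0 : su11) : M2) : M2) = 1
  rw [su11.coe_zero]
  simp

lemma mat_expG_inv (X : su11) : mat (expG X)⁻¹ = NormedSpace.exp (-(X : M2)) := by
  have h1 : mat (expG X) = NormedSpace.exp (X : M2) := rfl
  have h2 := mat_mul_inv (expG X)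
  have h3 := exp_neg_mul_exp (X : M2)
  rw [h1] at h2
  calc mat (expG X)⁻¹ = (NormedSpace.exp (-(X : M2)) * NormedSpace.exp (X : M2)) *
        mat (expG X)⁻¹ := by rw [h3, Matrix.one_mul]
    _ = NormedSpace.exp (-(X : M2)) := by rw [Matrix.mul_assoc, h2, Matrix.mul_one]

lemma hasDerivAt_entry_inv (X : su11) (i j : Fin 2) :
    HasDerivAt (fun t : ℝ => mat (expG (t • X))⁻¹ i j) (-(X : M2) i j) 0 := by
  have h := hasDerivAt_exp_entry (-(X : M2)) 0 i j
  simp only [zero_smul, NormedSpace.exp_zero, Matrix.one_mul, Matrix.neg_apply] at h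
  convert! h using 2
  rename_i t
  rw [mat_expG_inv, su11.coe_smul]
  simp

lemma hasDerivAt_mobF (X : su11) :
    HasDerivAt (fun t : ℝ => mobF (expG (t • X))⁻¹) (poly (vf X)) 0 := by
  have hnum : HasDerivAt (fun t : ℝ => numF (expG (t • X))⁻¹)
      ((-(X : M2) 0 0) • idC + (-(X : M2) 0 1) • (1 : C(Dsk, ℂ))) 0 :=
    ((hasDerivAt_entry_inv X 0 0).smul_const idC).add
      ((hasDerivAt_entry_inv X 0 1).smul_const (1 : C(Dsk, ℂ)))
  have hden : HasDerivAt (fun t : ℝ => denF (expG (t • X))⁻¹)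
      ((-(X : M2) 1 0) • idC + (-(X : M2) 1 1) • (1 : C(Dsk, ℂ))) 0 := by
    simp only [denF_eq']
    exact ((hasDerivAt_entry_inv X 1 0).smul_const idC).add
      ((hasDerivAt_entry_inv X 1 1).smul_const (1 : C(Dsk, ℂ)))
  have e0 : (expG ((0 : ℝ) • X))⁻¹ = 1 := by rw [zero_smul, expG_zero, inv_one]
  have hden0 : denF (expG ((0 : ℝ) • X))⁻¹ = 1 := by
    rw [e0, denF_eq', mat_one]; simp
  have hnum0 : numF (expG ((0 : ℝ) • X))⁻¹ = idC := by
    rw [e0, numF, mat_one]; simp
  have hinv := hasFDerivAt_ringInverse (𝕜 := ℝ) (1 : (C(Dsk, ℂ))ˣ)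
  have hinv' : HasDerivAt (fun t : ℝ => Ring.inverse (denF (expG (t • X))⁻¹))
      (-((-(X : M2) 1 0) • idC + (-(X : M2) 1 1) • (1 : C(Dsk, ℂ)))) 0 := by
    have := HasFDerivAt.comp_hasDerivAt (f := fun t : ℝ => denF (expG (t • X))⁻¹) (0 : ℝ)
      (by rw [hden0]; exact hinv) hden
    simpa [Function.comp_def] using this
  have hmul := hnum.mul hinv'
  rw [hden0, hnum0, Ring.inverse_one] at hmul
  simp only [mobF_eq]
  convert! hmul using 1
  ext z
  rw [poly_apply, vf]
  simp [idC]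
  ring

lemma hasDerivAt_aeval {u : ℝ → C(Dsk, ℂ)} {u' : C(Dsk, ℂ)} (hu : HasDerivAt u u' 0)
    (f : Polynomial ℂ) :
    HasDerivAt (fun t => Polynomial.aeval (u t) f)
      (Polynomial.aeval (u 0) (Polynomial.derivative f) * u') 0 := by
  induction f using Polynomial.induction_on with
  | C a =>
    simp only [Polynomial.aeval_C, Polynomial.derivative_C, map_zero, zero_mul]
    exact hasDerivAt_const _ _
  | add p q hp hq =>
    simp only [map_add, add_mul]
    exact hp.add hq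
  | monomial n a ih =>
    have h := ih.mul hu
    convert! h using 1
    · ext t
      simp [pow_succ, mul_assoc]
    · simp [pow_succ, Polynomial.derivative_mul]
      ring

/-- The action of the Lie algebra on polynomials. -/
noncomputable def lieP (X : su11) : Polynomial ℂ →ₗ[ℂ] Polynomial ℂ :=
  (LinearMap.mulLeft ℂ (vf X)) ∘ₗ Polynomial.derivative

lemma lieP_apply (X : su11) (f : Polynomial ℂ) : lieP X f = vf X * Polynomial.derivative f := rfl

lemma mobF_one : mobF 1 = idC := by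
  ext z
  exact mob_one z

lemma hasDerivAt_compA (X : su11) (f : Polynomial ℂ) :
    HasDerivAt (fun t : ℝ => compA (expG (t • X)) (poly f)) (poly (lieP X f)) 0 := by
  simp only [compA_poly]
  have h := hasDerivAt_aeval (hasDerivAt_mobF X) f
  convert! h using 1
  rw [zero_smul, expG_zero, inv_one, mobF_one, lieP_apply, map_mul, mul_comm]
  rfl

section

variable (ρ : ℂ → ℝ≥0∞) [hρ : Fact (Wt ρ)]

lemma jE_eq (f : Polynomial ℂ) : jE ρ f = jP ρ ⟨poly f, poly_mem f⟩ := rfl

lemma coe_piE_jE (g : SU11) (f : Polynomial ℂ) :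
    ((piE ρ g (jE ρ f) : ES ρ) : Lp ℂ 2 (muD ρ)) = jm ρ (compA g (poly f)) := by
  rw [piE_apply, jE_eq, T_jP]
  rfl

lemma hasDerivAt_piE (X : su11) (f : Polynomial ℂ) :
    HasDerivAt (fun t : ℝ => piE ρ (expG (t • X)) (jE ρ f)) (jE ρ (lieP X f)) 0 := by
  have h := ((jm ρ).restrictScalars ℝ).hasFDerivAt.comp_hasDerivAt (0 : ℝ) (hasDerivAt_compA X f)
  rw [hasDerivAt_iff_tendsto] at h ⊢
  refine h.congr fun t => ?_
  congr 1
  change _ = ‖((piE ρ (expG (t • X)) (jE ρ f) : ES ρ) : Lp ℂ 2 (muD ρ)) -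
    ((piE ρ (expG ((0 : ℝ) • X)) (jE ρ f) : ES ρ) : Lp ℂ 2 (muD ρ)) -
    (t - 0) • ((jE ρ (lieP X f) : ES ρ) : Lp ℂ 2 (muD ρ))‖
  rw [coe_piE_jE, coe_piE_jE]
  rfl

end

end Pool.Agent.Lib.MP_a304db_al
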