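import Pool.Agent.Lib.MP_a304db_al.Wts

set_option autoImplicit false

open Matrix Topology Metric MeasureTheory Set
open scoped ENNReal NNReal ComplexConjugate InnerProductSpace

namespace Pool.Agent.Lib.MP_a304db_al

lemma en_one_sq (n : ℕ) : ‖en 1 n‖ ^ 2 = Real.pi / (n + 1) := by
  rw [norm_en_sq, II_one, ENNReal.toReal_ofReal (by positivity)]

lemma en_rhoL_sq_le {ε : ℝ} (hε : 0 < ε) (hε1 : ε ≤ 1) (n : ℕ) :
    ‖en rhoL n‖ ^ 2 ≤ (1 + ∑' k : ℕ, (1 / ((k : ℝ) + 1) ^ (1 + ε))) *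
      ((n : ℝ) + 1) ^ ε * ‖en 1 n‖ ^ 2 := by
  have hZ : 0 ≤ ∑' k : ℕ, (1 / ((k : ℝ) + 1) ^ (1 + ε)) := tsum_nonneg fun k => by positivity
  rw [norm_en_sq, en_one_sq]
  exact ENNReal.toReal_le_of_le_ofReal (by positivity) (II_rhoL_le hε hε1 n)

lemma II_rhoL_ne_top (n : ℕ) : II rhoL n ≠ ∞ :=
  (lt_of_le_of_lt (II_rhoL_le one_pos le_rfl n) ENNReal.ofReal_lt_top).ne

lemma le_en_rhoL_sq (n : ℕ) :
    (1 / 2) * (∑ k ∈ Finset.range n, (1 / ((k : ℝ) + 1))) * ‖en 1 n‖ ^ 2 ≤ ‖en rhoL n‖ ^ 2 := by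
  rw [norm_en_sq rhoL, en_one_sq]
  exact (ENNReal.ofReal_le_iff_le_toReal (II_rhoL_ne_top n)).1 (le_II_rhoL n)

lemma en_one_sq_le (n : ℕ) : ‖en 1 n‖ ^ 2 ≤ ‖en rhoL n‖ ^ 2 := by
  rw [norm_en_sq, norm_en_sq]
  refine ENNReal.toReal_mono (II_rhoL_ne_top n) ?_
  rw [II_rhoL]
  exact le_self_add

lemma en_one_ne (n : ℕ) : en 1 n ≠ 0 := by
  intro h
  have := en_one_sq n
  rw [h, norm_zero, zero_pow two_ne_zero] at this
  have h2 : 0 < Real.pi / ((n : ℝ) + 1) := by positivity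
  linarith

lemma en_rhoL_ne (n : ℕ) : en rhoL n ≠ 0 := by
  intro h
  have := en_one_sq_le n
  rw [h, norm_zero, zero_pow two_ne_zero] at this
  have h2 : 0 < ‖en 1 n‖ := norm_pos_iff.2 (en_one_ne n)
  have h3 : 0 < ‖en 1 n‖ ^ 2 := by positivity
  linarith

lemma pn_le_of (ρ ρ' : ℂ → ℝ≥0∞) [Fact (Wt ρ)] [Fact (Wt ρ')] (b : ℕ → ℂ) {A : ℝ} (hA : 0 ≤ A)
    (h : ∀ n, ‖en ρ n‖ ^ 2 ≤ A ^ 2 * (‖b n‖ ^ 2 * ‖en ρ' n‖ ^ 2)) (f : Polynomial ℂ) :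
    pn ρ f ≤ A * pn ρ' (dg b f) := by
  rw [pn_apply, pn_apply]
  apply le_of_sq_le_sq _ (by positivity)
  rw [mul_pow, norm_sq_jE, norm_sq_jE]
  have hsub : (dg b f).support ⊆ f.support := by
    intro i hi
    rw [Polynomial.mem_support_iff, coeff_dg] at hi
    exact Polynomial.mem_support_iff.2 (right_ne_zero_of_mul hi)
  rw [Finset.sum_subset hsub, Finset.mul_sum]
  · refine Finset.sum_le_sum fun i _ => ?_
    rw [coeff_dg, norm_mul, mul_pow]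
    calc ‖f.coeff i‖ ^ 2 * ‖en ρ i‖ ^ 2 ≤
          ‖f.coeff i‖ ^ 2 * (A ^ 2 * (‖b i‖ ^ 2 * ‖en ρ' i‖ ^ 2)) := by
          gcongr
          exact h i
      _ = _ := by ring
  · intro i _ hi
    rw [Polynomial.notMem_support_iff.1 hi, norm_zero]
    ring

lemma isWeight_nrm : IsWeight fun g => nrm g ^ 3 := by
  refine ⟨fun g => pow_pos (nrm_pos g) 3, fun g h => ?_, fun g => ?_⟩
  · rw [← mul_pow]
    exact pow_le_pow_left₀ (nrm_pos _).le (nrm_mul g h) 3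
  · refine ⟨nrm g ^ 3 + 1, ?_⟩
    have hc : Continuous fun h : SU11 => nrm h ^ 3 := continuous_nrm.pow 3
    filter_upwards [hc.continuousAt.eventually_lt (continuousAt_const (y := nrm g ^ 3 + 1))
      (by linarith)] with h hh
    exact hh.le

lemma dominated_zero : Dominated (pn 1) fun v => pn rhoL (Dop 0 v) := by
  refine ⟨1, one_pos, fun v => ?_⟩
  refine pn_le_of 1 rhoL _ zero_le_one (fun n => ?_) v
  have : (((1 + (n : ℝ) ^ 2 / 2) ^ ((0 : ℝ) / 2) : ℝ) : ℂ) = 1 := by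
    rw [zero_div, Real.rpow_zero, Complex.ofReal_one]
  rw [this, norm_one]
  simpa using en_one_sq_le n

lemma pow_compare {s ε : ℝ} (hε : 0 < ε) (hs : ε ≤ 2 * s) (n : ℕ) :
    ((n : ℝ) + 1) ^ ε ≤ 4 ^ s * ((1 + (n : ℝ) ^ 2 / 2) ^ (s / 2)) ^ 2 := by
  have hn : 1 ≤ (n : ℝ) + 1 := by
    have := Nat.cast_nonneg (α := ℝ) n
    linarith
  have hb : (0 : ℝ) ≤ 1 + (n : ℝ) ^ 2 / 2 := by positivity
  calc ((n : ℝ) + 1) ^ ε ≤ ((n : ℝ) + 1) ^ (2 * s) := Real.rpow_le_rpow_of_exponent_le hn hs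
    _ = (((n : ℝ) + 1) ^ 2) ^ s := by
        rw [Real.rpow_mul (by linarith), Real.rpow_two]
    _ ≤ (4 * (1 + (n : ℝ) ^ 2 / 2)) ^ s := by
        apply Real.rpow_le_rpow (by positivity) _ (by linarith)
        nlinarith [sq_nonneg ((n : ℝ) - 1)]
    _ = 4 ^ s * ((1 + (n : ℝ) ^ 2 / 2) ^ (s / 2)) ^ 2 := by
        rw [Real.mul_rpow (by norm_num) hb, ← Real.rpow_natCast ((1 + (n : ℝ) ^ 2 / 2) ^ (s / 2)),
          ← Real.rpow_mul hb]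
        congr 2
        push_cast
        ring

lemma dominated_pos {s : ℝ} (hs : 0 < s) : Dominated (pn rhoL) fun v => pn 1 (Dop s v) := by
  obtain ⟨ε, hε, hε1, hε2⟩ : ∃ ε : ℝ, 0 < ε ∧ ε ≤ 1 ∧ ε ≤ 2 * s :=
    ⟨min 1 (2 * s), lt_min one_pos (by linarith), min_le_left _ _, min_le_right _ _⟩
  have hZ : 0 ≤ ∑' k : ℕ, (1 / ((k : ℝ) + 1) ^ (1 + ε)) := tsum_nonneg fun k => by positivity
  obtain ⟨B, hB⟩ : ∃ B : ℝ, B = (1 + ∑' k : ℕ, (1 / ((k : ℝ) + 1) ^ (1 + ε))) * 4 ^ s := ⟨_, rfl⟩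
  have hB0 : 0 < B := by rw [hB]; positivity
  refine ⟨Real.sqrt B, Real.sqrt_pos.2 hB0, fun v => ?_⟩
  refine pn_le_of rhoL 1 _ (Real.sqrt_nonneg B) (fun n => ?_) v
  rw [Real.sq_sqrt hB0.le, Complex.norm_real, Real.norm_of_nonneg (by positivity)]
  refine (en_rhoL_sq_le hε hε1 n).trans ?_
  rw [hB]
  have h1 := pow_compare hε hε2 n
  calc (1 + ∑' k : ℕ, (1 / ((k : ℝ) + 1) ^ (1 + ε))) * ((n : ℝ) + 1) ^ ε * ‖en 1 n‖ ^ 2
      ≤ (1 + ∑' k : ℕ, (1 / ((k : ℝ) + 1) ^ (1 + ε))) *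
        (4 ^ s * ((1 + (n : ℝ) ^ 2 / 2) ^ (s / 2)) ^ 2) * ‖en 1 n‖ ^ 2 := by gcongr
    _ = _ := by ring

lemma sobolevDist_eq_zero : sobolevDist Dop (pn 1) (pn rhoL) = 0 := by
  unfold sobolevDist
  have h1 : dArrow Dop (pn 1) (pn rhoL) = 0 := by
    apply le_antisymm _ bot_le
    exact iInf₂_le_of_le (0 : ℝ≥0) dominated_zero le_rfl
  have h2 : dArrow Dop (pn rhoL) (pn 1) = 0 := by
    refine le_antisymm ?_ zero_le
    apply ENNReal.le_of_forall_pos_le_add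
    intro ε hε _
    rw [zero_add]
    exact iInf₂_le_of_le ε (dominated_pos (by exact_mod_cast hε)) le_rfl
  rw [h1, h2, max_self]

lemma not_dominated : ¬ Dominated (pn rhoL) (pn 1) := by
  rintro ⟨C, hC, h⟩
  have h1 : ∀ n : ℕ, ∑ k ∈ Finset.range n, (1 / ((k : ℝ) + 1)) ≤ 2 * C ^ 2 := by
    intro n
    have h2 : ‖en rhoL n‖ ≤ C * ‖en 1 n‖ := h (Polynomial.X ^ n)
    have h3 : ‖en rhoL n‖ ^ 2 ≤ C ^ 2 * ‖en 1 n‖ ^ 2 := by
      rw [← mul_pow]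
      exact pow_le_pow_left₀ (norm_nonneg _) h2 2
    have h4 := (le_en_rhoL_sq n).trans h3
    have h5 : 0 < ‖en 1 n‖ ^ 2 := by
      have := norm_pos_iff.2 (en_one_ne n)
      positivity
    have h6 := le_of_mul_le_mul_right h4 h5
    linarith
  have h2 := Real.tendsto_sum_range_one_div_nat_succ_atTop
  obtain ⟨n, hn⟩ := (h2.eventually_gt_atTop (2 * C ^ 2)).exists
  exact absurd (h1 n) (not_le.2 hn)

end Pool.Agent.Lib.MP_a304db_al
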