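import Pool.Agent.Lib.MP_a304db_al.Kfin

set_option autoImplicit false

open Matrix Topology Metric MeasureTheory
open scoped ENNReal NNReal ComplexConjugate InnerProductSpace

namespace Pool.Agent.Lib.MP_a304db_al

lemma ktype_coeff {m : ℤ} {v : Polynomial ℂ} (hv : v ∈ Mod.ktype m) {n : ℕ}
    (hn : v.coeff n ≠ 0) : m = -2 * n := by
  have h : actP (rot 1) v = Complex.exp (m * (1 : ℝ) * Complex.I) • v := hv 1
  have h1 := congrArg (fun f => f.coeff n) h
  rw [actP_apply, coeff_scal, rot_pow, Polynomial.coeff_smul, smul_eq_mul, mul_comm] at h1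
  have h2 := mul_right_cancel₀ hn h1
  rw [chi, Complex.ofReal_one, mul_one] at h2
  exact (exp_int_inj h2).symm

lemma X_pow_mem_ktype (n : ℕ) : (Polynomial.X ^ n : Polynomial ℂ) ∈ Mod.ktype (-2 * n) := by
  intro θ
  change actP (rot θ) (Polynomial.X ^ n) = _
  ext k
  rw [actP_apply, coeff_scal, Polynomial.coeff_smul, Polynomial.coeff_X_pow]
  split_ifs with h
  · rw [h, mat_rot11, ← Complex.exp_nat_mul, ← Complex.exp_nat_mul, one_mul, smul_eq_mul, mul_one]
    congr 1
    push_cast
    ring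
  · simp

lemma ktype_fin (m : ℤ) : FiniteDimensional ℂ (Submodule.span ℂ (Mod.ktype m)) := by
  have hle : Submodule.span ℂ (Mod.ktype m) ≤
      Submodule.span ℂ {(Polynomial.X ^ (m.natAbs / 2) : Polynomial ℂ)} := by
    rw [Submodule.span_le]
    intro v hv
    rw [SetLike.mem_coe]
    rw [Submodule.mem_span_singleton]
    refine ⟨v.coeff (m.natAbs / 2), ?_⟩
    ext n
    rw [Polynomial.coeff_smul, Polynomial.coeff_X_pow]
    split_ifs with h
    · rw [h, smul_eq_mul, mul_one]
    · by_contra hc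
      rw [smul_zero] at hc
      have := ktype_coeff hv (Ne.symm hc)
      omega
  exact Submodule.finiteDimensional_of_le hle

/-- The real element `[[0, 1], [1, 0]]`. -/
def X1 : su11 := ⟨!![0, 1; 1, 0], by
  refine ⟨?_, by simp [Matrix.trace_fin_two]⟩
  ext i j
  fin_cases i <;> fin_cases j <;>
    simp [J, Matrix.mul_apply, Fin.sum_univ_two, Matrix.conjTranspose_apply]⟩

lemma mx_X1 : (X1 : M2) = !![0, 1; 1, 0] := rfl

/-- The element `[[0, i], [-i, 0]]`. -/
def X2 : su11 := ⟨!![0, Complex.I; -Complex.I, 0], by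
  refine ⟨?_, by simp [Matrix.trace_fin_two]⟩
  ext i j
  fin_cases i <;> fin_cases j <;>
    simp [J, Matrix.mul_apply, Fin.sum_univ_two, Matrix.conjTranspose_apply]⟩

lemma mx_X2 : (X2 : M2) = !![0, Complex.I; -Complex.I, 0] := rfl

lemma vf_X1 : vf X1 = Polynomial.X ^ 2 - 1 := by
  simp [vf, mx_X1]

lemma vf_X2 : vf X2 = - Polynomial.C Complex.I * Polynomial.X ^ 2 - Polynomial.C Complex.I := by
  simp [vf, mx_X2]

lemma isHarishChandra_Mod : Mod.IsHarishChandra := by
  refine ⟨ktype_fin, {1, Polynomial.X}, Set.toFinite _, fun W hS hW => ?_⟩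
  have hstep : ∀ f ∈ W, Polynomial.C 2 * (Polynomial.X ^ 2 * Polynomial.derivative f) ∈ W := by
    intro f hf
    have h1 : lieP X1 f ∈ W := hW X1 f hf
    have h2 : lieP X2 f ∈ W := hW X2 f hf
    have h3 := W.add_mem h1 (W.smul_mem Complex.I h2)
    convert! h3 using 1
    have hI : Polynomial.C Complex.I * Polynomial.C Complex.I = -1 := by
      rw [← map_mul, Complex.I_mul_I, map_neg, map_one]
    have h2 : (Polynomial.C (2 : ℂ)) = 2 := map_ofNat _ 2
    rw [lieP_apply, lieP_apply, vf_X1, vf_X2, Polynomial.smul_eq_C_mul, h2]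
    linear_combination ((Polynomial.X ^ 2 + 1) * Polynomial.derivative f) * hI
  have hpow : ∀ n : ℕ, (Polynomial.X ^ n : Polynomial ℂ) ∈ W := by
    intro n
    induction n with
    | zero => rw [pow_zero]; exact hS (by simp)
    | succ n ih =>
      rcases n with _ | n
      · rw [zero_add, pow_one]; exact hS (by simp)
      · have h1 := hstep _ ih
        have h2 : Polynomial.C (2 : ℂ) * (Polynomial.X ^ 2 *
            Polynomial.derivative (Polynomial.X ^ (n + 1))) =
            (2 * ((n : ℂ) + 1)) • Polynomial.X ^ (n + 1 + 1) := by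
          rw [Polynomial.derivative_X_pow, Polynomial.smul_eq_C_mul]
          simp only [Nat.add_sub_cancel, map_mul, map_add]
          push_cast
          simp
          ring
        rw [h2] at h1
        have hne : (2 * ((n : ℂ) + 1)) ≠ 0 := by
          have : ((n : ℂ) + 1) ≠ 0 := by exact_mod_cast Nat.succ_ne_zero n
          simpa using this
        have h3 := W.smul_mem (2 * ((n : ℂ) + 1))⁻¹ h1
        rwa [smul_smul, inv_mul_cancel₀ hne, one_smul] at h3
  rw [eq_top_iff]
  intro f _
  rw [f.as_sum_support]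
  refine W.sum_mem fun i _ => ?_
  rw [← Polynomial.C_mul_X_pow_eq_monomial, ← Polynomial.smul_eq_C_mul]
  exact W.smul_mem _ (hpow i)

/-- The diagonal operator with entries `a`. -/
noncomputable def dg (a : ℕ → ℂ) : Polynomial ℂ →ₗ[ℂ] Polynomial ℂ :=
  Polynomial.lsum fun n => (a n) • (Polynomial.monomial n)

lemma coeff_dg (a : ℕ → ℂ) (f : Polynomial ℂ) (n : ℕ) : (dg a f).coeff n = a n * f.coeff n := by
  change (f.sum fun i x => ((a i) • (Polynomial.monomial i)) x).coeff n = _
  rw [Polynomial.sum_def]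
  simp only [Polynomial.finsetSum_coeff, LinearMap.smul_apply, Polynomial.coeff_smul,
    Polynomial.coeff_monomial, smul_eq_mul, mul_ite, mul_zero]
  rw [Finset.sum_ite_eq']
  split_ifs with h
  · rfl
  · rw [Polynomial.notMem_support_iff.1 h, mul_zero]

/-- The Sobolev operators. -/
noncomputable def Dop (s : ℝ) : Polynomial ℂ →ₗ[ℂ] Polynomial ℂ :=
  dg fun n => (((1 + (n : ℝ) ^ 2 / 2) ^ (s / 2) : ℝ) : ℂ)

lemma isSobolev_Dop : IsSobolev Mod Dop := by
  intro s m v hv
  ext n
  rw [Dop, coeff_dg, Polynomial.coeff_smul, smul_eq_mul]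
  by_cases hn : v.coeff n = 0
  · rw [hn, mul_zero, mul_zero]
  · have := ktype_coeff hv hn
    congr 3
    rw [this]
    push_cast
    ring

lemma isSobolev_unique (D : ℝ → Polynomial ℂ →ₗ[ℂ] Polynomial ℂ) (hD : IsSobolev Mod D) :
    D = Dop := by
  funext s
  apply Polynomial.lhom_ext'
  intro n
  apply LinearMap.ext_ring
  have h1 := hD s _ _ (X_pow_mem_ktype n)
  have h2 := isSobolev_Dop s _ _ (X_pow_mem_ktype n)
  rw [← h2] at h1
  simpa [Polynomial.X_pow_eq_monomial] using h1

end Pool.Agent.Lib.MP_a304db_al
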