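import Pool.Agent.Lib.MP_a304db_al.Rep

set_option autoImplicit false

open Matrix Topology Metric MeasureTheory
open scoped ENNReal NNReal ComplexConjugate

namespace Pool.Agent.Lib.MP_a304db_al

section

variable (ρ : ℂ → ℝ≥0∞) [hρ : Fact (Wt ρ)]

instance finite_muD : IsFiniteMeasure (muD ρ) := by
  constructor
  rw [muD_apply, Set.image_univ, Subtype.range_coe, muC_apply _ isClosed_closedBall.measurableSet]
  exact lt_of_le_of_lt (lintegral_mono_set Set.inter_subset_right) hρ.out.fin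

/-- The embedding of continuous functions into `L²`. -/
noncomputable def jm : C(Dsk, ℂ) →L[ℂ] Lp ℂ 2 (muD ρ) := ContinuousMap.toLp 2 (muD ρ) ℂ

lemma enorm_jm (F : C(Dsk, ℂ)) : ‖jm ρ F‖ₑ = eLpNorm F 2 (muD ρ) := by
  rw [Lp.enorm_def]
  exact eLpNorm_congr_ae (ContinuousMap.coeFn_toLp (muD ρ) F)

lemma norm_jm_compA_le (g : SU11) (F : C(Dsk, ℂ)) :
    ‖jm ρ (compA g F)‖ ≤ nrm g ^ 3 * ‖jm ρ F‖ := by
  have hn := nrm_pos g
  have h1 : ‖jm ρ (compA g F)‖ₑ ≤ ENNReal.ofReal (nrm g ^ 3) * ‖jm ρ F‖ₑ := by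
    rw [enorm_jm, enorm_jm]
    have e1 : eLpNorm (compA g F) 2 (muD ρ) = eLpNorm F 2 (Measure.map (mobD g⁻¹) (muD ρ)) := by
      rw [eLpNorm_map_measure F.continuous.aestronglyMeasurable
        (continuous_mobD g⁻¹).measurable.aemeasurable]
      rfl
    rw [e1]
    refine (eLpNorm_mono_measure _ (map_le hρ.out g)).trans ?_
    rw [eLpNorm_smul_measure_of_ne_top (by norm_num), smul_eq_mul]
    gcongr
    rw [ENNReal.ofReal_rpow_of_nonneg (by positivity) (by positivity)]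
    apply ENNReal.ofReal_le_ofReal
    rw [← Real.rpow_natCast, ← Real.rpow_mul hn.le, ← Real.rpow_natCast]
    norm_num
  rw [← ofReal_norm, ← ofReal_norm, ← ENNReal.ofReal_mul (by positivity)] at h1
  exact (ENNReal.ofReal_le_ofReal_iff (by positivity)).1 h1

/-- The map from polynomials to `L²`. -/
noncomputable def jpoly : Polynomial ℂ →ₗ[ℂ] Lp ℂ 2 (muD ρ) :=
  (jm ρ).toLinearMap ∘ₗ poly.toLinearMap

/-- The weighted Bergman space: the closure of the polynomials in `L²`. -/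
noncomputable def ES : Submodule ℂ (Lp ℂ 2 (muD ρ)) := (LinearMap.range (jpoly ρ)).topologicalClosure

instance : CompleteSpace (ES ρ) :=
  (Submodule.isClosed_topologicalClosure _).completeSpace_coe

/-- The embedding of polynomials into the weighted Bergman space. -/
noncomputable def jE : Polynomial ℂ →ₗ[ℂ] ES ρ :=
  (jpoly ρ).codRestrict (ES ρ) fun f => Submodule.le_topologicalClosure _ ⟨f, rfl⟩

lemma dense_jE : DenseRange (jE ρ) := by
  intro x
  rw [Metric.mem_closure_iff]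
  intro ε hε
  have hx : (x : Lp ℂ 2 (muD ρ)) ∈ closure (LinearMap.range (jpoly ρ) : Set (Lp ℂ 2 (muD ρ))) := x.2
  obtain ⟨_, ⟨f, rfl⟩, hf⟩ := Metric.mem_closure_iff.1 hx ε hε
  exact ⟨jE ρ f, ⟨f, rfl⟩, hf⟩

lemma jm_mem {F : C(Dsk, ℂ)} (hF : F ∈ P) : jm ρ F ∈ ES ρ := by
  have h1 : Set.MapsTo (jm ρ) (poly.range : Set C(Dsk, ℂ))
      (LinearMap.range (jpoly ρ) : Set (Lp ℂ 2 (muD ρ))) := by
    rintro _ ⟨f, rfl⟩
    exact ⟨f, rfl⟩
  exact h1.closure (jm ρ).continuous hF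

/-- The embedding of the disc algebra into the weighted Bergman space. -/
noncomputable def jP : P →ₗ[ℂ] ES ρ :=
  ((jm ρ).toLinearMap.comp P.toSubmodule.subtype).codRestrict (ES ρ) fun F => jm_mem ρ F.2

lemma jP_coe (F : P) : ((jP ρ F : ES ρ) : Lp ℂ 2 (muD ρ)) = jm ρ (F : C(Dsk, ℂ)) := rfl

lemma continuous_jP : Continuous (jP ρ) :=
  Continuous.subtype_mk ((jm ρ).continuous.comp continuous_subtype_val) _

lemma dense_jP : DenseRange (jP ρ) := by
  refine (dense_jE ρ).mono ?_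
  rintro _ ⟨f, rfl⟩
  exact ⟨⟨poly f, poly_mem f⟩, rfl⟩

/-- Composition with `g⁻¹` on the disc algebra. -/
noncomputable def compP (g : SU11) : P →ₗ[ℂ] P where
  toFun F := ⟨compA g F, compA_mem g F.2⟩
  map_add' := fun F G => Subtype.ext (map_add (compA g) (F : C(Dsk, ℂ)) G)
  map_smul' := fun c F => Subtype.ext (map_smul (compA g) c (F : C(Dsk, ℂ)))

lemma norm_jP_compP_le (g : SU11) (F : P) :
    ‖(jP ρ ∘ₗ compP g) F‖ ≤ nrm g ^ 3 * ‖jP ρ F‖ :=
  norm_jm_compA_le ρ g F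

/-- The action of `g` on the weighted Bergman space. -/
noncomputable def T (g : SU11) : ES ρ →L[ℂ] ES ρ := (jP ρ ∘ₗ compP g).extendOfNorm (jP ρ)

lemma T_jP (g : SU11) (F : P) : T ρ g (jP ρ F) = jP ρ (compP g F) :=
  LinearMap.extendOfNorm_eq (dense_jP ρ) ⟨_, norm_jP_compP_le ρ g⟩ F

lemma norm_T_apply_le (g : SU11) (x : ES ρ) : ‖T ρ g x‖ ≤ nrm g ^ 3 * ‖x‖ :=
  LinearMap.norm_extendOfNorm_apply_le (dense_jP ρ) _ (norm_jP_compP_le ρ g) x

lemma T_one : T ρ 1 = 1 := by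
  refine ContinuousLinearMap.ext fun x => ?_
  refine congrFun ((dense_jP ρ).equalizer (T ρ 1).continuous
    (1 : ES ρ →L[ℂ] ES ρ).continuous ?_) x
  ext1 F
  change T ρ 1 (jP ρ F) = jP ρ F
  rw [T_jP]
  congr 1
  exact Subtype.ext (compA_one _)

lemma T_mul (g h : SU11) : T ρ (g * h) = T ρ g * T ρ h := by
  refine ContinuousLinearMap.ext fun x => ?_
  refine congrFun ((dense_jP ρ).equalizer (T ρ (g * h)).continuous
    (T ρ g * T ρ h).continuous ?_) x
  ext1 F
  change T ρ (g * h) (jP ρ F) = T ρ g (T ρ h (jP ρ F))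
  rw [T_jP, T_jP, T_jP]
  congr 1
  exact Subtype.ext (compA_mul g h _)

/-- The representation of `SU(1,1)` on the weighted Bergman space. -/
noncomputable def piE : SU11 →* (ES ρ →L[ℂ] ES ρ) :=
  ⟨⟨T ρ, T_one ρ⟩, fun g h => T_mul ρ g h⟩

lemma piE_apply (g : SU11) (x : ES ρ) : piE ρ g x = T ρ g x := rfl

lemma continuous_inv_SU11 : Continuous fun g : SU11 => g⁻¹ := continuous_inv

lemma continuous_mobD_inv_uncurry : Continuous fun x : SU11 × Dsk => mobD x.1⁻¹ x.2 := by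
  have h := continuous_mobD_uncurry
  have h1 : Continuous fun x : SU11 × Dsk => ((x.1⁻¹, x.2) : SU11 × Dsk) :=
    (continuous_inv_SU11.comp continuous_fst).prodMk continuous_snd
  have h2 := h.comp h1
  simp only [Function.comp_def] at h2
  exact h2

lemma continuous_compA_left (F : C(Dsk, ℂ)) : Continuous fun g => compA g F := by
  apply ContinuousMap.continuous_of_continuous_uncurry
  exact F.continuous.comp continuous_mobD_inv_uncurry

lemma continuous_T_left (F : P) : Continuous fun g => T ρ g (jP ρ F) := by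
  simp only [T_jP]
  refine (continuous_jP ρ).comp ?_
  exact Continuous.subtype_mk (continuous_compA_left _) _

lemma continuous_piE : Continuous fun x : SU11 × ES ρ => piE ρ x.1 x.2 := by
  rw [continuous_iff_continuousAt]
  rintro ⟨g0, x0⟩
  rw [Metric.continuousAt_iff']
  intro ε hε
  change ∀ᶠ x : SU11 × ES ρ in 𝓝 (g0, x0), dist (T ρ x.1 x.2) (T ρ g0 x0) < ε
  obtain ⟨B, hB⟩ : ∃ B : ℝ, B = nrm g0 ^ 3 + 1 := ⟨_, rfl⟩
  have hBpos : 0 < B := by
    have := nrm_pos g0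
    rw [hB]; positivity
  have hn : Continuous fun g : SU11 => nrm g ^ 3 := continuous_nrm.pow 3
  have h1 : ∀ᶠ g in 𝓝 g0, nrm g ^ 3 < B :=
    hn.continuousAt.eventually_lt continuousAt_const (by rw [hB]; linarith)
  obtain ⟨_, ⟨F, rfl⟩, hF⟩ := Metric.mem_closure_iff.1 ((dense_jP ρ) x0) (ε / (4 * B))
    (by positivity)
  have h2 : ∀ᶠ g in 𝓝 g0, dist (T ρ g (jP ρ F)) (T ρ g0 (jP ρ F)) < ε / 4 :=
    Metric.continuousAt_iff'.1 (continuous_T_left ρ F).continuousAt _ (by positivity)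
  have h3 : ∀ᶠ x in 𝓝 x0, dist x (jP ρ F) < ε / (4 * B) := by
    have : Continuous fun x => dist x (jP ρ F) := by fun_prop
    exact this.continuousAt.eventually_lt continuousAt_const hF
  rw [nhds_prod_eq]
  filter_upwards [(h1.and h2).prod_mk h3] with x hx
  obtain ⟨⟨hx1, hx2⟩, hx3⟩ := hx
  have hb : ∀ (g : SU11) (y z : ES ρ), nrm g ^ 3 < B → dist (T ρ g y) (T ρ g z) ≤ B * dist y z := by
    intro g y z hg
    rw [dist_eq_norm, ← map_sub, dist_eq_norm]
    exact (norm_T_apply_le ρ g _).trans (by gcongr)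
  have hB4 : B * (ε / (4 * B)) = ε / 4 := by field_simp
  calc dist (T ρ x.1 x.2) (T ρ g0 x0) ≤ dist (T ρ x.1 x.2) (T ρ x.1 (jP ρ F)) +
        dist (T ρ x.1 (jP ρ F)) (T ρ g0 (jP ρ F)) + dist (T ρ g0 (jP ρ F)) (T ρ g0 x0) :=
        dist_triangle4 _ _ _ _
    _ ≤ B * (ε / (4 * B)) + ε / 4 + B * (ε / (4 * B)) := by
        gcongr
        · exact (hb _ _ _ hx1).trans (by gcongr)
        · refine (hb _ _ _ (by rw [hB]; linarith)).trans ?_
          rw [dist_comm]
          gcongr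
    _ < ε := by rw [hB4]; linarith

end

end Pool.Agent.Lib.MP_a304db_al
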