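import Pool.Agent.Lib.MP_a304db_al.Mod

set_option autoImplicit false

open Matrix Topology Metric MeasureTheory
open scoped ENNReal NNReal ComplexConjugate InnerProductSpace

namespace Pool.Agent.Lib.MP_a304db_al

lemma compA_poly_K (k : K) (f : Polynomial ℂ) : compA (k : SU11) (poly f) = poly (actP k f) := by
  ext z
  rw [compA_apply, poly_apply, poly_apply, actP_apply, scal_eq_comp, Polynomial.eval_comp]
  congr 1
  obtain ⟨i00, i11, i01, i10⟩ := K_inv k
  have hd := K_det k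
  have h0 : mat (k : SU11) 0 0 ≠ 0 := left_ne_zero_of_mul_eq_one hd
  change mobC (k : SU11)⁻¹ z = _
  rw [mobC, den, i00, i11, i01, i10]
  simp only [Polynomial.eval_mul, Polynomial.eval_C, Polynomial.eval_X, add_zero, zero_mul,
    zero_add]
  rw [div_eq_iff h0]
  linear_combination (-mat (k : SU11) 1 1 * (z : ℂ)) * hd

lemma nrm_K (k : K) : nrm (k : SU11) = 1 := by
  have h := normSq_sub (k : SU11)
  rw [(K_entry k).1, Complex.normSq_zero, sub_zero, Complex.normSq_eq_norm_sq] at h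
  have h1 : ‖mat (k : SU11) 0 0‖ = 1 := by
    have := norm_nonneg (mat (k : SU11) 0 0)
    nlinarith
  rw [nrm, (K_entry k).1, norm_zero, h1, add_zero]

lemma norm_sq_sum_orth {E : Type*} [NormedAddCommGroup E] [InnerProductSpace ℂ E] (e : ℕ → E)
    (h : ∀ n m, n ≠ m → ⟪e n, e m⟫_ℂ = 0) (s : Finset ℕ) (a : ℕ → ℂ) :
    ‖∑ i ∈ s, a i • e i‖ ^ 2 = ∑ i ∈ s, ‖a i‖ ^ 2 * ‖e i‖ ^ 2 := by
  induction s using Finset.induction_on with
  | empty => simp
  | insert i s hi ih =>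
    rw [Finset.sum_insert hi, Finset.sum_insert hi, ← ih, norm_add_sq (𝕜 := ℂ), inner_sum]
    have : ∑ j ∈ s, ⟪a i • e i, a j • e j⟫_ℂ = 0 := by
      refine Finset.sum_eq_zero fun j hj => ?_
      rw [inner_smul_left, inner_smul_right, h i j (by rintro rfl; exact hi hj)]
      ring
    rw [this, norm_smul, mul_pow]
    simp

/-- The character of `K` on the monomial `z^n`, at the rotation by angle one. -/
noncomputable def chi (n : ℕ) : ℂ := Complex.exp ((-2 * n : ℤ) * Complex.I)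

lemma norm_chi (n : ℕ) : ‖chi n‖ = 1 := by
  rw [chi]
  have : (((-2 * n : ℤ) : ℂ) * Complex.I) = ((-2 * n : ℝ) : ℂ) * Complex.I := by push_cast; ring
  rw [this, Complex.norm_exp_ofReal_mul_I]

lemma chi_ne_zero (n : ℕ) : chi n ≠ 0 := Complex.exp_ne_zero _

lemma conj_chi (n : ℕ) : conj (chi n) = (chi n)⁻¹ := by
  rw [← Complex.inv_eq_conj (norm_chi n)]

lemma chi_inj {n m : ℕ} (h : chi n = chi m) : n = m := by
  have := exp_int_inj h
  omega

lemma rot_pow (n : ℕ) : (mat (rot 1 : SU11) 1 1 ^ 2) ^ n = chi n := by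
  rw [mat_rot11, ← Complex.exp_nat_mul, ← Complex.exp_nat_mul, chi]
  congr 1
  push_cast
  ring

lemma actP_rot_X_pow (n : ℕ) : actP (rot 1) (Polynomial.X ^ n) = chi n • Polynomial.X ^ n := by
  ext m
  rw [actP_apply, coeff_scal, Polynomial.coeff_smul, Polynomial.coeff_X_pow]
  split_ifs with h
  · rw [h, rot_pow]; simp
  · simp

section

variable {E : Type*} [NormedAddCommGroup E] [InnerProductSpace ℂ E]
  (j : Polynomial ℂ →ₗ[ℂ] E) (hj : DenseRange j) (π : K → (E →L[ℂ] E))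
  (hn : ∀ (k : K) x, ‖π k x‖ = ‖x‖) (hπ : ∀ (k : K) f, π k (j f) = j (actP k f))
  (hone : π 1 = 1) (hmul : ∀ k l, π (k * l) = π k * π l)

include hn in
lemma inner_piK (k : K) (x y : E) : ⟪π k x, π k y⟫_ℂ = ⟪x, y⟫_ℂ :=
  LinearIsometry.inner_map_map (⟨(π k).toLinearMap, hn k⟩ : E →ₗᵢ[ℂ] E) x y

include hπ in
lemma piK_en (n : ℕ) : π (rot 1) (j (Polynomial.X ^ n)) = chi n • j (Polynomial.X ^ n) := by
  rw [hπ, ← map_smul, actP_rot_X_pow]

include hn hπ in
lemma inner_en' {n m : ℕ} (h : n ≠ m) :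
    ⟪j (Polynomial.X ^ n), j (Polynomial.X ^ m)⟫_ℂ = 0 := by
  have h1 := inner_piK π hn (rot 1) (j (Polynomial.X ^ n)) (j (Polynomial.X ^ m))
  rw [piK_en j π hπ, piK_en j π hπ, inner_smul_left, inner_smul_right, conj_chi] at h1
  by_contra hc
  have h2 : (chi n)⁻¹ * chi m = 1 := by
    apply mul_right_cancel₀ hc
    rw [one_mul, mul_assoc]
    exact h1
  rw [inv_mul_eq_one₀ (chi_ne_zero n)] at h2
  exact h (chi_inj h2)

include hn hπ in
lemma inner_en_piK (n : ℕ) (x : E) :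
    ⟪j (Polynomial.X ^ n), π (rot 1) x⟫_ℂ = chi n * ⟪j (Polynomial.X ^ n), x⟫_ℂ := by
  have h1 : j (Polynomial.X ^ n) = (chi n)⁻¹ • π (rot 1) (j (Polynomial.X ^ n)) := by
    rw [piK_en j π hπ, smul_smul, inv_mul_cancel₀ (chi_ne_zero n), one_smul]
  conv_lhs => rw [h1]
  rw [inner_smul_left, inner_piK π hn, map_inv₀, conj_chi, inv_inv]

lemma j_eq_sum (f : Polynomial ℂ) :
    j f = ∑ i ∈ f.support, f.coeff i • j (Polynomial.X ^ i) := by
  conv_lhs => rw [f.as_sum_support, map_sum]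
  refine Finset.sum_congr rfl fun i _ => ?_
  rw [← map_smul, ← Polynomial.C_mul_X_pow_eq_monomial, Polynomial.smul_eq_C_mul]

include hn hπ in
lemma norm_sq_j (f : Polynomial ℂ) :
    ‖j f‖ ^ 2 = ∑ i ∈ f.support, ‖f.coeff i‖ ^ 2 * ‖j (Polynomial.X ^ i)‖ ^ 2 := by
  conv_lhs => rw [j_eq_sum]
  exact norm_sq_sum_orth (fun i => j (Polynomial.X ^ i)) (fun n m h => inner_en' j π hn hπ h) _ _

include hj in
lemma eq_zero_of_inner_en (x : E) (h : ∀ n, ⟪j (Polynomial.X ^ n), x⟫_ℂ = 0) : x = 0 := by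
  have h1 : ∀ f : Polynomial ℂ, ⟪j f, x⟫_ℂ = 0 := by
    intro f
    rw [j_eq_sum, sum_inner]
    refine Finset.sum_eq_zero fun i _ => ?_
    rw [inner_smul_left, h i, mul_zero]
  have h2 : (fun y : E => ⟪y, x⟫_ℂ) = fun _ => 0 := by
    refine hj.equalizer (by fun_prop) continuous_const ?_
    ext f
    exact h1 f
  exact inner_self_eq_zero.1 (congrFun h2 x)

include hπ in
lemma kfinite_mpr' (f : Polynomial ℂ) :
    FiniteDimensional ℂ (Submodule.span ℂ (Set.range fun k : K => π k (j f))) := by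
  have h := actP_locally_finite f
  have h2 : Submodule.span ℂ (Set.range fun k : K => π k (j f)) =
      (Submodule.span ℂ (Set.range fun k => actP k f)).map j := by
    rw [Submodule.map_span, ← Set.range_comp]
    congr 1
    ext1
    simp only [Set.mem_range, Function.comp_apply]
    constructor
    · rintro ⟨k, rfl⟩
      exact ⟨k, (hπ k f).symm⟩
    · rintro ⟨k, rfl⟩
      exact ⟨k, hπ k f⟩
  rw [h2]
  infer_instance

include hj hn hπ hone hmul in
lemma kfinite_mp' (x : E)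
    (hx : FiniteDimensional ℂ (Submodule.span ℂ (Set.range fun k : K => π k x))) :
    x ∈ LinearMap.range j := by
  obtain ⟨W, hW⟩ : ∃ W, W = Submodule.span ℂ (Set.range fun k : K => π k x) :=
    ⟨_, rfl⟩
  rw [← hW] at hx
  have hxW : x ∈ W := by
    rw [hW]
    refine Submodule.subset_span ⟨1, ?_⟩
    change π 1 x = x
    rw [hone]
    rfl
  have hstab : ∀ w ∈ W, π (rot 1) w ∈ W := by
    intro w hw
    rw [hW] at hw ⊢
    induction hw using Submodule.span_induction with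
    | mem y hy =>
      obtain ⟨k, rfl⟩ := hy
      refine Submodule.subset_span ⟨rot 1 * k, ?_⟩
      change π (rot 1 * k) x = _
      rw [hmul]
      rfl
    | zero => rw [map_zero]; exact Submodule.zero_mem _
    | add y z _ _ hy hz => rw [map_add]; exact Submodule.add_mem _ hy hz
    | smul a y _ hy => rw [map_smul]; exact Submodule.smul_mem _ _ hy
  let A : W →ₗ[ℂ] W := (π (rot 1)).toLinearMap.restrict hstab
  let c : ℕ → Module.Dual ℂ W := fun n => (innerSL ℂ (j (Polynomial.X ^ n))).toLinearMap ∘ₗ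
    W.subtype
  have hc : ∀ n, A.dualMap (c n) = chi n • c n := by
    intro n
    apply LinearMap.ext
    intro w
    exact inner_en_piK j π hn hπ n (w : E)
  let S : Set ℕ := {n | ⟪j (Polynomial.X ^ n), x⟫_ℂ ≠ 0}
  have hlin : LinearIndependent ℂ fun n : S => c (n : ℕ) := by
    refine Module.End.eigenvectors_linearIndependent' A.dualMap (fun n : S => chi (n : ℕ)) ?_ _ ?_
    · intro a b hab
      exact Subtype.ext (chi_inj hab)
    · intro n
      refine ⟨Module.End.mem_eigenspace_iff.2 (hc n), ?_⟩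
      intro h0
      have := LinearMap.congr_fun h0 ⟨x, hxW⟩
      exact n.2 this
  have hfin : S.Finite := by
    have : Finite S := hlin.finite
    exact Set.toFinite S
  refine ⟨∑ n ∈ hfin.toFinset, (⟪j (Polynomial.X ^ n), x⟫_ℂ /
    ⟪j (Polynomial.X ^ n), j (Polynomial.X ^ n)⟫_ℂ) • Polynomial.X ^ n, ?_⟩
  rw [← sub_eq_zero]
  apply eq_zero_of_inner_en j hj
  intro m
  rw [inner_sub_right, map_sum, inner_sum]
  simp only [map_smul, inner_smul_right]
  by_cases hm : ⟪j (Polynomial.X ^ m), x⟫_ℂ = 0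
  · rw [hm, sub_zero]
    refine Finset.sum_eq_zero fun i hi => ?_
    have hi' : ⟪j (Polynomial.X ^ i), x⟫_ℂ ≠ 0 := by simpa [S] using hi
    have hmi : m ≠ i := by rintro rfl; exact hi' hm
    rw [inner_en' j π hn hπ hmi, mul_zero]
  · rw [Finset.sum_eq_single_of_mem m (by simpa [S] using hm)]
    · have : ⟪j (Polynomial.X ^ m), j (Polynomial.X ^ m)⟫_ℂ ≠ 0 := by
        intro h0
        rw [inner_self_eq_zero] at h0
        rw [h0, inner_zero_left] at hm
        exact hm rfl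
      rw [div_mul_cancel₀ _ this, sub_self]
    · intro i _ him
      rw [inner_en' j π hn hπ him.symm, mul_zero]

end

section

variable (ρ : ℂ → ℝ≥0∞) [hρ : Fact (Wt ρ)]

lemma piE_jE_K (k : K) (f : Polynomial ℂ) :
    piE ρ (k : SU11) (jE ρ f) = jE ρ (actP k f) := by
  apply Subtype.ext
  rw [coe_piE_jE, compA_poly_K]
  rfl

lemma norm_piE_K (k : K) (x : ES ρ) : ‖piE ρ (k : SU11) x‖ = ‖x‖ := by
  have h1 : ∀ (l : K) (y : ES ρ), ‖piE ρ (l : SU11) y‖ ≤ ‖y‖ := by
    intro l y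
    have := norm_T_apply_le ρ (l : SU11) y
    rwa [nrm_K, one_pow, one_mul] at this
  refine le_antisymm (h1 k x) ?_
  have h2 := h1 k⁻¹ (piE ρ (k : SU11) x)
  have h3 : piE ρ ((k⁻¹ : K) : SU11) (piE ρ (k : SU11) x) = x := by
    have : piE ρ ((k⁻¹ : K) : SU11) * piE ρ (k : SU11) = 1 := by
      rw [← map_mul]
      have : ((k⁻¹ : K) : SU11) * (k : SU11) = 1 := inv_mul_cancel _
      rw [this, map_one]
    exact DFunLike.congr_fun this x
  rwa [h3] at h2

/-- The image of the monomial `z^n`. -/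
noncomputable def en (n : ℕ) : ES ρ := jE ρ (Polynomial.X ^ n)

lemma norm_sq_jE (f : Polynomial ℂ) :
    ‖jE ρ f‖ ^ 2 = ∑ i ∈ f.support, ‖f.coeff i‖ ^ 2 * ‖en ρ i‖ ^ 2 :=
  norm_sq_j (jE ρ) (fun k : K => piE ρ (k : SU11)) (norm_piE_K ρ) (piE_jE_K ρ) f

lemma kfinite_mp (x : ES ρ)
    (hx : FiniteDimensional ℂ (Submodule.span ℂ (Set.range fun k : K => piE ρ (k : SU11) x))) :
    x ∈ LinearMap.range (jE ρ) :=
  kfinite_mp' (jE ρ) (dense_jE ρ) (fun k : K => piE ρ (k : SU11)) (norm_piE_K ρ) (piE_jE_K ρ)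
    (map_one (piE ρ)) (fun k l => map_mul (piE ρ) (k : SU11) (l : SU11)) x hx

lemma kfinite_mpr (f : Polynomial ℂ) :
    FiniteDimensional ℂ (Submodule.span ℂ (Set.range fun k : K => piE ρ (k : SU11) (jE ρ f))) :=
  kfinite_mpr' (jE ρ) (fun k : K => piE ρ (k : SU11)) (piE_jE_K ρ) f

/-- The seminorm on polynomials defined by the weighted `L²` norm. -/
noncomputable def pn : Seminorm ℂ (Polynomial ℂ) := (normSeminorm ℂ (ES ρ)).comp (jE ρ)

lemma pn_apply (f : Polynomial ℂ) : pn ρ f = ‖jE ρ f‖ := rfl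

lemma isContRep_T : IsContRep (T ρ) :=
  ⟨fun x => DFunLike.congr_fun (T_one ρ) x, fun g h x => DFunLike.congr_fun (T_mul ρ g h) x,
    continuous_piE ρ⟩

lemma isGlobalization : IsGlobalization Mod (pn ρ) (jE ρ) (T ρ) :=
  ⟨fun _ => rfl, dense_jE ρ, isContRep_T ρ,
    fun x => ⟨kfinite_mp ρ x, by rintro ⟨f, rfl⟩; exact kfinite_mpr ρ f⟩,
    piE_jE_K ρ, hasDerivAt_piE ρ⟩

lemma memNorm (h0 : ∀ n, en ρ n ≠ 0) : MemNorm Mod (fun g => nrm g ^ 3) (pn ρ) := by
  refine ⟨?_, ES ρ, inferInstance, inferInstance, inferInstance, jE ρ, T ρ, isGlobalization ρ,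
    1, one_pos, ?_⟩
  · intro f hf
    change ‖jE ρ f‖ = 0 at hf
    have h1 := norm_sq_jE ρ f
    rw [hf, zero_pow two_ne_zero] at h1
    ext n
    by_contra hn
    rw [Polynomial.coeff_zero] at hn
    have h2 : ‖f.coeff n‖ ^ 2 * ‖en ρ n‖ ^ 2 ≤
        ∑ i ∈ f.support, ‖f.coeff i‖ ^ 2 * ‖en ρ i‖ ^ 2 :=
      Finset.single_le_sum (f := fun i => ‖f.coeff i‖ ^ 2 * ‖en ρ i‖ ^ 2)
        (fun i _ => by positivity) (Polynomial.mem_support_iff.2 hn)
    rw [← h1] at h2
    have h3 : 0 < ‖f.coeff n‖ ^ 2 * ‖en ρ n‖ ^ 2 := by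
      have := norm_pos_iff.2 hn
      have := norm_pos_iff.2 (h0 n)
      positivity
    linarith
  · intro g f
    have := norm_T_apply_le ρ g (jE ρ f)
    rw [one_mul]
    exact this

end

end Pool.Agent.Lib.MP_a304db_al
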