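import Pool.Agent.Lib.MP_a304db_al.Mob

set_option autoImplicit false

open Matrix Topology Metric MeasureTheory
open scoped ENNReal NNReal ComplexConjugate

namespace Pool.Agent.Lib.MP_a304db_al

/-- The closed unit disc as a (compact) type. -/
abbrev Dsk : Type := closedBall (0 : ℂ) 1

lemma Dsk.norm_le (z : Dsk) : ‖(z : ℂ)‖ ≤ 1 := by
  have := z.2
  rwa [mem_closedBall_zero_iff] at this

/-- The weighted area measure on the unit disc, as a measure on the complex plane. -/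
noncomputable def muC (ρ : ℂ → ℝ≥0∞) : Measure ℂ := (volume.restrict (ball 0 1)).withDensity ρ

/-- The weighted area measure on the closed unit disc. -/
noncomputable def muD (ρ : ℂ → ℝ≥0∞) : Measure Dsk := (muC ρ).comap Subtype.val

lemma measurableEmbedding_val : MeasurableEmbedding (Subtype.val : Dsk → ℂ) :=
  MeasurableEmbedding.subtype_coe isClosed_closedBall.measurableSet

/-- Admissible weight functions. -/
structure Wt (ρ : ℂ → ℝ≥0∞) : Prop where
  meas : Measurable ρ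
  rot : ∀ u z : ℂ, ‖u‖ = 1 → ρ (u * z) = ρ z
  fin : ∫⁻ z in ball 0 1, ρ z < ∞
  one_le : ∀ z : ℂ, ‖z‖ < 1 → 1 ≤ ρ z
  quasi : ∀ (g : SU11) (z : ℂ), ‖z‖ < 1 → ENNReal.ofReal (1 / ‖den g z‖ ^ 4) * ρ (mobC g z) ≤
    ENNReal.ofReal (nrm g ^ 6) * ρ z

lemma muC_apply (ρ : ℂ → ℝ≥0∞) {s : Set ℂ} (hs : MeasurableSet s) :
    muC ρ s = ∫⁻ z in s ∩ ball 0 1, ρ z := by
  rw [muC, withDensity_apply _ hs, Measure.restrict_restrict hs]

lemma muD_apply (ρ : ℂ → ℝ≥0∞) (s : Set Dsk) : muD ρ s = muC ρ (Subtype.val '' s) := by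
  rw [muD, measurableEmbedding_val.comap_apply]

/-- The Moebius action as a continuous self-map of the closed disc. -/
noncomputable def mobD (g : SU11) (z : Dsk) : Dsk :=
  ⟨mobC g z, by rw [mem_closedBall_zero_iff]; exact norm_mob_le g z.norm_le⟩

lemma continuous_mobD_uncurry : Continuous fun x : SU11 × Dsk => mobD x.1 x.2 := by
  unfold mobD mobC
  refine Continuous.subtype_mk ?_ _
  have h2 : Continuous fun x : SU11 × Dsk => (x.2 : ℂ) := continuous_subtype_val.comp continuous_snd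
  have hc : ∀ i j, Continuous fun x : SU11 × Dsk => mat x.1 i j :=
    fun i j => (continuous_entry i j).comp continuous_fst
  refine Continuous.div (((hc 0 0).mul h2).add (hc 0 1)) ?_ ?_
  · unfold den
    exact ((hc 1 0).mul h2).add (hc 1 1)
  · intro x
    exact den_ne_zero x.1 x.2.norm_le

lemma continuous_mobD (g : SU11) : Continuous (mobD g) :=
  continuous_mobD_uncurry.comp (by fun_prop : Continuous fun z : Dsk => (g, z))

lemma mobD_mul (g h : SU11) (z : Dsk) : mobD (g * h) z = mobD g (mobD h z) :=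
  Subtype.ext (mob_mul g h z.norm_le)

lemma mobD_one (z : Dsk) : mobD 1 z = z := Subtype.ext (mob_one z)

lemma mobD_inv_mob (g : SU11) (z : Dsk) : mobD g⁻¹ (mobD g z) = z := by
  rw [← mobD_mul, inv_mul_cancel, mobD_one]

lemma mobD_mob_inv (g : SU11) (z : Dsk) : mobD g (mobD g⁻¹ z) = z := by
  rw [← mobD_mul, mul_inv_cancel, mobD_one]

lemma image_eq (g : SU11) (t : Set Dsk) :
    (Subtype.val '' (mobD g⁻¹ ⁻¹' t)) ∩ ball 0 1 =
      mobC g '' ((Subtype.val '' t) ∩ ball 0 1) := by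
  ext z
  constructor
  · rintro ⟨⟨w, hw, rfl⟩, hz⟩
    rw [mem_ball_zero_iff] at hz
    refine ⟨(mobD g⁻¹ w : Dsk), ⟨⟨_, hw, rfl⟩, ?_⟩, ?_⟩
    · rw [mem_ball_zero_iff]; exact norm_mob_lt g⁻¹ hz
    · exact congrArg Subtype.val (mobD_mob_inv g w)
  · rintro ⟨w, ⟨⟨v, hv, rfl⟩, hw⟩, rfl⟩
    rw [mem_ball_zero_iff] at hw
    refine ⟨⟨mobD g v, ?_, rfl⟩, ?_⟩
    · change mobD g⁻¹ (mobD g v) ∈ t
      rwa [mobD_inv_mob]
    · rw [mem_ball_zero_iff]; exact norm_mob_lt g hw

lemma abs_det_eq (c : ℂ) :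
    |((ContinuousLinearMap.toSpanSingleton ℂ c).restrictScalars ℝ : ℂ →L[ℝ] ℂ).det| =
      ‖c‖ ^ 2 := by
  simp [ContinuousLinearMap.det, LinearMap.det_restrictScalars,
      Algebra.norm_complex_eq, Complex.normSq_eq_norm_sq]

lemma map_le {ρ : ℂ → ℝ≥0∞} (hρ : Wt ρ) (g : SU11) :
    Measure.map (mobD g⁻¹) (muD ρ) ≤ ENNReal.ofReal (nrm g ^ 6) • muD ρ := by
  refine Measure.le_intro fun t ht _ => ?_
  rw [Measure.map_apply (continuous_mobD _).measurable ht, Measure.smul_apply, smul_eq_mul,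
    muD_apply, muD_apply]
  have ht' : MeasurableSet (Subtype.val '' t) := measurableEmbedding_val.measurableSet_image.2 ht
  have hpre : MeasurableSet (Subtype.val '' (mobD g⁻¹ ⁻¹' t)) :=
    measurableEmbedding_val.measurableSet_image.2 ((continuous_mobD _).measurable ht)
  rw [muC_apply ρ hpre, muC_apply ρ ht', image_eq]
  have hm : MeasurableSet ((Subtype.val '' t) ∩ ball (0 : ℂ) 1) := ht'.inter measurableSet_ball
  have hinj : Set.InjOn (mobC g) ((Subtype.val '' t) ∩ ball (0 : ℂ) 1) := by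
    intro x hx y hy hxy
    have hx' : ‖x‖ ≤ 1 := (mem_ball_zero_iff.1 hx.2).le
    have hy' : ‖y‖ ≤ 1 := (mem_ball_zero_iff.1 hy.2).le
    have h1 := mob_mul g⁻¹ g hx'
    have h2 := mob_mul g⁻¹ g hy'
    rw [inv_mul_cancel, mob_one] at h1 h2
    rw [h1, h2, hxy]
  have key := lintegral_image_eq_lintegral_abs_det_fderiv_mul volume hm
    (f := mobC g)
    (f' := fun z => (ContinuousLinearMap.toSpanSingleton ℂ (1 / den g z ^ 2)).restrictScalars ℝ)
    (fun z hz => ((hasDerivAt_mob g (mem_ball_zero_iff.1 hz.2).le).hasFDerivAt.restrictScalars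
      ℝ).hasFDerivWithinAt) hinj ρ
  rw [key, ← lintegral_const_mul _ hρ.meas]
  refine setLIntegral_mono_ae (hρ.meas.const_mul _).aemeasurable (Filter.Eventually.of_forall fun z hz => ?_)
  have hz' : ‖z‖ < 1 := mem_ball_zero_iff.1 hz.2
  rw [abs_det_eq]
  have := hρ.quasi g z hz'
  convert! this using 3
  rw [norm_div, norm_one, norm_pow, div_pow, one_pow, ← pow_mul]

end Pool.Agent.Lib.MP_a304db_al
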