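import Pool.Agent.Lib.MP_a304db_al.Defs

set_option autoImplicit false

open Matrix Topology Metric
open scoped ENNReal NNReal ComplexConjugate

namespace Pool.Agent.Lib.MP_a304db_al

lemma form_eq (g : SU11) : (mat g)ᴴ * J * mat g = J := g.2

lemma det_mat (g : SU11) : mat g 0 0 * mat g 1 1 - mat g 0 1 * mat g 1 0 = 1 := by
  have := g.1.2
  rw [Matrix.det_fin_two] at this
  exact this

lemma form00 (g : SU11) : conj (mat g 0 0) * mat g 0 0 - conj (mat g 1 0) * mat g 1 0 = 1 := by
  have := congrFun (congrFun (form_eq g) 0) 0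
  simp [J, Matrix.mul_apply, Fin.sum_univ_two, Matrix.conjTranspose] at this
  linear_combination this

lemma form01 (g : SU11) : conj (mat g 0 0) * mat g 0 1 - conj (mat g 1 0) * mat g 1 1 = 0 := by
  have := congrFun (congrFun (form_eq g) 0) 1
  simp [J, Matrix.mul_apply, Fin.sum_univ_two, Matrix.conjTranspose] at this
  linear_combination this

lemma form11 (g : SU11) : conj (mat g 0 1) * mat g 0 1 - conj (mat g 1 1) * mat g 1 1 = -1 := by
  have := congrFun (congrFun (form_eq g) 1) 1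
  simp [J, Matrix.mul_apply, Fin.sum_univ_two, Matrix.conjTranspose] at this
  linear_combination this

lemma mat11 (g : SU11) : mat g 1 1 = conj (mat g 0 0) := by
  have h1 := det_mat g
  have h2 := form00 g
  have h3 := form01 g
  linear_combination (-mat g 1 1) * h2 + conj (mat g 0 0) * h1 + mat g 1 0 * h3

lemma mat10 (g : SU11) : mat g 1 0 = conj (mat g 0 1) := by
  have h1 := det_mat g
  have h2 := form01 g
  have h3 := form11 g
  have h2' : mat g 0 0 * conj (mat g 0 1) - mat g 1 0 * conj (mat g 1 1) = 0 := by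
    have := congrArg conj h2
    simpa using this
  linear_combination (mat g 1 0) * h3 + conj (mat g 0 1) * h1 - (mat g 1 1) * h2'

lemma normSq_sub (g : SU11) : Complex.normSq (mat g 0 0) - Complex.normSq (mat g 0 1) = 1 := by
  have h := form00 g
  rw [mat10, Complex.conj_conj, mul_comm (mat g 0 1), ← Complex.normSq_eq_conj_mul_self,
    ← Complex.normSq_eq_conj_mul_self] at h
  exact_mod_cast h

/-- The operator norm `|a| + |b|` of `g = [[a, b], [conj b, conj a]]`. -/
noncomputable def nrm (g : SU11) : ℝ := ‖mat g 0 0‖ + ‖mat g 0 1‖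

lemma nrm_mul_sub (g : SU11) : nrm g * (‖mat g 0 0‖ - ‖mat g 0 1‖) = 1 := by
  have := normSq_sub g
  rw [Complex.normSq_eq_norm_sq, Complex.normSq_eq_norm_sq] at this
  rw [nrm]; linear_combination this

lemma norm_lt (g : SU11) : ‖mat g 0 1‖ < ‖mat g 0 0‖ := by
  have h := nrm_mul_sub g
  have h0 : 0 ≤ nrm g := by unfold nrm; positivity
  by_contra hc
  push Not at hc
  nlinarith [mul_nonneg h0 (sub_nonneg.2 hc)]

lemma nrm_pos (g : SU11) : 0 < nrm g := by
  have h1 := norm_lt g
  have h2 := norm_nonneg (mat g 0 1)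
  unfold nrm; linarith

lemma one_le_nrm (g : SU11) : 1 ≤ nrm g := by
  have h := nrm_mul_sub g
  have h2 := norm_nonneg (mat g 0 1)
  have h3 := nrm_pos g
  by_contra hc
  push Not at hc
  have : ‖mat g 0 0‖ - ‖mat g 0 1‖ ≤ nrm g := by unfold nrm; linarith
  nlinarith

lemma nrm_mul (g h : SU11) : nrm (g * h) ≤ nrm g * nrm h := by
  unfold nrm
  have e0 : mat (g * h) 0 0 = mat g 0 0 * mat h 0 0 + mat g 0 1 * mat h 1 0 := by
    rw [mat_mul, Matrix.mul_apply, Fin.sum_univ_two]
  have e1 : mat (g * h) 0 1 = mat g 0 0 * mat h 0 1 + mat g 0 1 * mat h 1 1 := by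
    rw [mat_mul, Matrix.mul_apply, Fin.sum_univ_two]
  rw [e0, e1, mat10, mat11]
  have h1 := norm_add_le (mat g 0 0 * mat h 0 0) (mat g 0 1 * conj (mat h 0 1))
  have h2 := norm_add_le (mat g 0 0 * mat h 0 1) (mat g 0 1 * conj (mat h 0 0))
  simp only [norm_mul, RCLike.norm_conj] at h1 h2
  nlinarith

lemma nrm_inv (g : SU11) : nrm g⁻¹ = nrm g := by
  have h : mat g⁻¹ = !![mat g 1 1, -mat g 0 1; -mat g 1 0, mat g 0 0] := by
    have := Matrix.adjugate_fin_two (mat g)
    exact this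
  unfold nrm
  rw [h]
  simp [mat11]

lemma continuous_mat : Continuous mat := by
  have h1 : Continuous (fun g : SU11sub => (g : SpecialLinearGroup (Fin 2) ℂ)) :=
    continuous_subtype_val
  have h2 : Continuous (fun g : SpecialLinearGroup (Fin 2) ℂ => g.1) := continuous_subtype_val
  exact h2.comp h1

instance : ContinuousInv SU11 := inferInstanceAs (ContinuousInv SU11sub)

lemma continuous_entry (i j : Fin 2) : Continuous fun g : SU11 => mat g i j :=
  (continuous_apply j).comp ((continuous_apply i).comp continuous_mat)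

lemma continuous_nrm : Continuous nrm := by
  unfold nrm
  exact (continuous_entry 0 0).norm.add (continuous_entry 0 1).norm

/-- The denominator `c z + d`. -/
noncomputable def den (g : SU11) (z : ℂ) : ℂ := mat g 1 0 * z + mat g 1 1

/-- The Moebius action. -/
noncomputable def mobC (g : SU11) (z : ℂ) : ℂ := (mat g 0 0 * z + mat g 0 1) / den g z

lemma norm_den_ge (g : SU11) {z : ℂ} (hz : ‖z‖ ≤ 1) : ‖mat g 0 0‖ - ‖mat g 0 1‖ ≤ ‖den g z‖ := by
  unfold den
  rw [mat10, mat11]
  have h1 : ‖conj (mat g 0 0)‖ = ‖mat g 0 0‖ := RCLike.norm_conj _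
  have h2 : ‖conj (mat g 0 1) * z‖ ≤ ‖mat g 0 1‖ := by
    rw [norm_mul, RCLike.norm_conj]
    have := norm_nonneg (mat g 0 1)
    nlinarith
  have h3 := norm_sub_norm_le (conj (mat g 0 0)) (-(conj (mat g 0 1) * z))
  rw [norm_neg, sub_neg_eq_add, add_comm (conj (mat g 0 0))] at h3
  linarith

lemma norm_den_le (g : SU11) {z : ℂ} (hz : ‖z‖ ≤ 1) : ‖den g z‖ ≤ nrm g := by
  unfold den nrm
  rw [mat10, mat11]
  have h1 := norm_add_le (conj (mat g 0 1) * z) (conj (mat g 0 0))
  rw [norm_mul, RCLike.norm_conj, RCLike.norm_conj] at h1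
  have := norm_nonneg (mat g 0 1)
  nlinarith

lemma norm_den_pos (g : SU11) {z : ℂ} (hz : ‖z‖ ≤ 1) : 0 < ‖den g z‖ := by
  have h1 := norm_den_ge g hz
  have h2 := norm_lt g
  linarith

lemma den_ne_zero (g : SU11) {z : ℂ} (hz : ‖z‖ ≤ 1) : den g z ≠ 0 :=
  norm_pos_iff.1 (norm_den_pos g hz)

lemma one_le_nrm_mul_den (g : SU11) {z : ℂ} (hz : ‖z‖ ≤ 1) : 1 ≤ nrm g * ‖den g z‖ := by
  rw [← nrm_mul_sub g]
  exact mul_le_mul_of_nonneg_left (norm_den_ge g hz) (nrm_pos g).le

lemma normSq_identity (g : SU11) (z : ℂ) :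
    Complex.normSq (den g z) - Complex.normSq (mat g 0 0 * z + mat g 0 1) =
      1 - Complex.normSq z := by
  have h := normSq_sub g
  unfold den
  rw [mat10, mat11]
  simp only [Complex.normSq_apply, Complex.add_re, Complex.add_im, Complex.mul_re, Complex.mul_im,
    Complex.conj_re, Complex.conj_im] at *
  linear_combination (1 - z.re * z.re - z.im * z.im) * h

lemma one_sub_normSq_mob (g : SU11) {z : ℂ} (hz : ‖z‖ ≤ 1) :
    1 - ‖mobC g z‖ ^ 2 = (1 - ‖z‖ ^ 2) / ‖den g z‖ ^ 2 := by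
  have h := normSq_identity g z
  have h0 := norm_den_pos g hz
  simp only [Complex.normSq_eq_norm_sq] at h
  rw [mobC, norm_div, div_pow, eq_div_iff (by positivity), ← h]
  field_simp

lemma norm_mob_le (g : SU11) {z : ℂ} (hz : ‖z‖ ≤ 1) : ‖mobC g z‖ ≤ 1 := by
  have h := one_sub_normSq_mob g hz
  have h2 : 0 ≤ (1 - ‖z‖ ^ 2) / ‖den g z‖ ^ 2 := by
    apply div_nonneg _ (by positivity)
    have := norm_nonneg z
    nlinarith
  have h3 := norm_nonneg (mobC g z)
  nlinarith

lemma norm_mob_lt (g : SU11) {z : ℂ} (hz : ‖z‖ < 1) : ‖mobC g z‖ < 1 := by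
  have h := one_sub_normSq_mob g hz.le
  have h0 := norm_den_pos g hz.le
  have h2 : 0 < (1 - ‖z‖ ^ 2) / ‖den g z‖ ^ 2 := by
    apply div_pos _ (by positivity)
    have := norm_nonneg z
    nlinarith
  have h3 := norm_nonneg (mobC g z)
  nlinarith

lemma mob_mul_den (g : SU11) {z : ℂ} (hz : ‖z‖ ≤ 1) :
    mobC g z * den g z = mat g 0 0 * z + mat g 0 1 := by
  rw [mobC, div_mul_cancel₀ _ (den_ne_zero g hz)]

lemma mat_mul_apply (g h : SU11) (i j : Fin 2) :
    mat (g * h) i j = mat g i 0 * mat h 0 j + mat g i 1 * mat h 1 j := by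
  rw [mat_mul, Matrix.mul_apply, Fin.sum_univ_two]

lemma den_mul (g h : SU11) {z : ℂ} (hz : ‖z‖ ≤ 1) :
    den (g * h) z = den g (mobC h z) * den h z := by
  have h1 := mob_mul_den h hz
  have h2 : den g (mobC h z) * den h z = mat g 1 0 * (mobC h z * den h z) +
      mat g 1 1 * den h z := by rw [den]; ring
  rw [h2, h1, den, den, mat_mul_apply, mat_mul_apply]
  ring

lemma mob_mul (g h : SU11) {z : ℂ} (hz : ‖z‖ ≤ 1) :
    mobC (g * h) z = mobC g (mobC h z) := by
  have h0 := den_ne_zero h hz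
  have h1 := mob_mul_den h hz
  have h2 := mob_mul_den g (norm_mob_le h hz)
  rw [mobC, div_eq_iff (den_ne_zero _ hz), den_mul g h hz, ← mul_assoc, h2, add_mul, mul_assoc, h1,
    mat_mul_apply, mat_mul_apply, den]
  ring

lemma mob_one (z : ℂ) : mobC 1 z = z := by
  simp [mobC, den, mat_one]

lemma den_one (z : ℂ) : den 1 z = 1 := by
  simp [den, mat_one]

lemma hasDerivAt_mob (g : SU11) {z : ℂ} (hz : ‖z‖ ≤ 1) :
    HasDerivAt (mobC g) (1 / den g z ^ 2) z := by
  have h0 := den_ne_zero g hz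
  have h1 : HasDerivAt (fun z : ℂ => mat g 0 0 * z + mat g 0 1) (mat g 0 0) z := by
    simpa using ((hasDerivAt_id z).const_mul (mat g 0 0)).add_const (mat g 0 1)
  have h2 : HasDerivAt (den g) (mat g 1 0) z := by
    unfold den
    simpa using ((hasDerivAt_id z).const_mul (mat g 1 0)).add_const (mat g 1 1)
  have h3 := h1.div h2 h0
  convert! h3 using 1
  have hd := det_mat g
  congr 1
  rw [den]
  linear_combination (-1 : ℂ) * hd

end Pool.Agent.Lib.MP_a304db_al
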