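import Pool.Agent.Lib.MP_a304db_al.Deriv

set_option autoImplicit false

open Matrix Topology Metric MeasureTheory
open scoped ENNReal NNReal ComplexConjugate

namespace Pool.Agent.Lib.MP_a304db_al

/-- Scaling of the variable. -/
noncomputable def scal (c : ℂ) : Polynomial ℂ →ₗ[ℂ] Polynomial ℂ :=
  (Polynomial.aeval (Polynomial.C c * Polynomial.X)).toLinearMap

lemma scal_eq_comp (c : ℂ) (f : Polynomial ℂ) :
    scal c f = f.comp (Polynomial.C c * Polynomial.X) := rfl

lemma coeff_scal (c : ℂ) (f : Polynomial ℂ) (n : ℕ) : (scal c f).coeff n = f.coeff n * c ^ n := by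
  rw [scal_eq_comp, Polynomial.comp_C_mul_X_coeff]

lemma scal_mul (c d : ℂ) : scal (c * d) = scal c * scal d := by
  apply LinearMap.ext
  intro f
  ext n
  rw [Module.End.mul_apply, coeff_scal, coeff_scal, coeff_scal, mul_pow]
  ring

lemma scal_one : scal 1 = 1 := by
  apply LinearMap.ext
  intro f
  ext n
  rw [coeff_scal, Module.End.one_apply, one_pow, mul_one]

lemma scal_eq_sum (c : ℂ) (f : Polynomial ℂ) :
    scal c f = ∑ i ∈ f.support, c ^ i • Polynomial.monomial i (f.coeff i) := by
  ext n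
  rw [coeff_scal]
  simp only [Polynomial.finsetSum_coeff, Polynomial.coeff_smul, Polynomial.coeff_monomial,
    smul_eq_mul, mul_ite, mul_zero]
  rw [Finset.sum_ite_eq']
  split_ifs with h
  · ring
  · rw [Polynomial.notMem_support_iff.1 h, zero_mul]

lemma K_form (k : K) : (mat (k : SU11))ᴴ * mat (k : SU11) = 1 := k.2

lemma K_entry (k : K) : mat (k : SU11) 0 1 = 0 ∧ mat (k : SU11) 1 0 = 0 := by
  have h1 := congrFun (congrFun (K_form k) 0) 0
  simp only [Matrix.mul_apply, Fin.sum_univ_two, Matrix.conjTranspose_apply, Matrix.one_apply_eq]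
    at h1
  have h2 := form00 (k : SU11)
  have h3 : star (mat (k : SU11) 1 0) * mat (k : SU11) 1 0 = 0 := by
    have h2' : star (mat (k : SU11) 0 0) * mat (k : SU11) 0 0 -
      star (mat (k : SU11) 1 0) * mat (k : SU11) 1 0 = 1 := h2
    linear_combination (1 / 2 : ℂ) * h1 - (1 / 2 : ℂ) * h2'
  have h4 : mat (k : SU11) 1 0 = 0 := by
    rcases mul_eq_zero.1 h3 with h | h
    · exact star_eq_zero.1 h
    · exact h
  refine ⟨?_, h4⟩
  rw [mat10, map_eq_zero] at h4
  exact h4

lemma K_det (k : K) : mat (k : SU11) 0 0 * mat (k : SU11) 1 1 = 1 := by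
  have h := det_mat (k : SU11)
  rw [(K_entry k).1, zero_mul, sub_zero] at h
  exact h

lemma K_mul11 (k l : K) : mat ((k * l : K) : SU11) 1 1 = mat (k : SU11) 1 1 * mat (l : SU11) 1 1 := by
  rw [K.coe_mul, mat_mul_apply, (K_entry k).2, zero_mul, zero_add]

lemma K_inv (k : K) : mat (k : SU11)⁻¹ 0 0 = mat (k : SU11) 1 1 ∧
    mat (k : SU11)⁻¹ 1 1 = mat (k : SU11) 0 0 ∧ mat (k : SU11)⁻¹ 0 1 = 0 ∧
    mat (k : SU11)⁻¹ 1 0 = 0 := by
  have h : mat (k : SU11)⁻¹ = !![mat (k : SU11) 1 1, -mat (k : SU11) 0 1;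
      -mat (k : SU11) 1 0, mat (k : SU11) 0 0] := Matrix.adjugate_fin_two (mat (k : SU11))
  rw [h, (K_entry k).1, (K_entry k).2]
  simp

/-- The action of `K` on polynomials. -/
noncomputable def actP : K →* (Polynomial ℂ →ₗ[ℂ] Polynomial ℂ) where
  toFun k := scal (mat (k : SU11) 1 1 ^ 2)
  map_one' := by
    have : mat ((1 : K) : SU11) 1 1 = 1 := by
      have : mat ((1 : K) : SU11) = 1 := rfl
      rw [this]; simp
    rw [this, one_pow, scal_one]
  map_mul' := by
    intro k l
    rw [K_mul11, mul_pow, scal_mul]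

lemma actP_apply (k : K) : actP k = scal (mat (k : SU11) 1 1 ^ 2) := rfl

lemma lieP_bracket (X Y Z : su11) (h : (Z : M2) = (X : M2) * (Y : M2) - (Y : M2) * (X : M2))
    (v : Polynomial ℂ) : lieP Z v = lieP X (lieP Y v) - lieP Y (lieP X v) := by
  have h00 : (Z : M2) 0 0 = (X : M2) 0 1 * (Y : M2) 1 0 - (Y : M2) 0 1 * (X : M2) 1 0 := by
    rw [h]; simp [Matrix.mul_apply, Fin.sum_univ_two]; ring
  have h11 : (Z : M2) 1 1 = (X : M2) 1 0 * (Y : M2) 0 1 - (Y : M2) 1 0 * (X : M2) 0 1 := by
    rw [h]; simp [Matrix.mul_apply, Fin.sum_univ_two]; ring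
  have h01 : (Z : M2) 0 1 = (X : M2) 0 0 * (Y : M2) 0 1 + (X : M2) 0 1 * (Y : M2) 1 1 -
      (Y : M2) 0 0 * (X : M2) 0 1 - (Y : M2) 0 1 * (X : M2) 1 1 := by
    rw [h]; simp [Matrix.mul_apply, Fin.sum_univ_two]; ring
  have h10 : (Z : M2) 1 0 = (X : M2) 1 0 * (Y : M2) 0 0 + (X : M2) 1 1 * (Y : M2) 1 0 -
      (Y : M2) 1 0 * (X : M2) 0 0 - (Y : M2) 1 1 * (X : M2) 1 0 := by
    rw [h]; simp [Matrix.mul_apply, Fin.sum_univ_two]; ring
  have hC2 : (Polynomial.C (2 : ℂ)) = 2 := map_ofNat _ 2
  simp only [lieP_apply, vf, h00, h11, h01, h10, Polynomial.derivative_mul,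
    Polynomial.derivative_C, Polynomial.derivative_X,
    Polynomial.derivative_X_pow, map_sub, map_add, map_mul]
  simp [hC2]
  ring

lemma lieP_add (X Y : su11) (v : Polynomial ℂ) : lieP (X + Y) v = lieP X v + lieP Y v := by
  simp only [lieP_apply, vf, su11.coe_add, Matrix.add_apply, map_add, map_sub]
  ring

lemma lieP_smul (c : ℝ) (X : su11) (v : Polynomial ℂ) :
    lieP (c • X) v = (c : ℂ) • lieP X v := by
  simp only [lieP_apply, vf, su11.coe_smul, Matrix.smul_apply, map_sub, Complex.real_smul,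
    map_mul, Polynomial.smul_eq_C_mul]
  ring

lemma actP_lieP (k : K) (X Y : su11) (h : (Y : M2) = mat (k : SU11) * (X : M2) *
    mat (k : SU11)⁻¹) (v : Polynomial ℂ) : actP k (lieP X v) = lieP Y (actP k v) := by
  obtain ⟨hk01, hk10⟩ := K_entry k
  obtain ⟨i00, i11, i01, i10⟩ := K_inv k
  have hd := K_det k
  have e : ∀ i j, (Y : M2) i j = (mat (k : SU11) i 0 * (X : M2) 0 0 + mat (k : SU11) i 1 *
      (X : M2) 1 0) * mat (k : SU11)⁻¹ 0 j + (mat (k : SU11) i 0 * (X : M2) 0 1 +
      mat (k : SU11) i 1 * (X : M2) 1 1) * mat (k : SU11)⁻¹ 1 j := by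
    intro i j
    rw [h]
    simp only [Matrix.mul_apply, Fin.sum_univ_two]
  have h00 : (Y : M2) 0 0 = (X : M2) 0 0 := by
    rw [e, hk01, i00, i10]; linear_combination (X : M2) 0 0 * hd
  have h11 : (Y : M2) 1 1 = (X : M2) 1 1 := by
    rw [e, hk10, i11, i01]; linear_combination (X : M2) 1 1 * hd
  have h01 : (Y : M2) 0 1 = mat (k : SU11) 0 0 ^ 2 * (X : M2) 0 1 := by
    rw [e, hk01, i01, i11]; ring
  have h10 : (Y : M2) 1 0 = mat (k : SU11) 1 1 ^ 2 * (X : M2) 1 0 := by
    rw [e, hk10, i00, i10]; ring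
  rw [actP_apply, lieP_apply, lieP_apply, scal_eq_comp, scal_eq_comp, Polynomial.mul_comp,
    Polynomial.derivative_comp]
  have key : (vf X).comp (Polynomial.C (mat (k : SU11) 1 1 ^ 2) * Polynomial.X) =
      vf Y * Polynomial.C (mat (k : SU11) 1 1 ^ 2) := by
    simp only [vf, h00, h11, h01, h10, Polynomial.sub_comp, Polynomial.mul_comp,
      Polynomial.pow_comp, Polynomial.X_comp, Polynomial.C_comp, map_mul, map_sub, map_pow]
    have hd' : Polynomial.C (mat (k : SU11) 0 0) * Polynomial.C (mat (k : SU11) 1 1) = 1 := by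
      rw [← map_mul, hd, map_one]
    have : (Polynomial.C (mat (k : SU11) 0 0)) ^ 2 * (Polynomial.C (mat (k : SU11) 1 1)) ^ 2 = 1 := by
      rw [← mul_pow, hd', one_pow]
    linear_combination (Polynomial.C ((X : M2) 0 1)) * this
  rw [key]
  simp only [Polynomial.derivative_mul, Polynomial.derivative_C, Polynomial.derivative_X]
  ring

lemma exp_int_inj {a b : ℤ} (h : Complex.exp (a * Complex.I) = Complex.exp (b * Complex.I)) :
    a = b := by
  rw [Complex.exp_eq_exp_iff_exists_int] at h
  obtain ⟨n, hn⟩ := h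
  have h1 : ((a : ℂ) - b) = n * (2 * Real.pi) := by
    have hI : Complex.I ≠ 0 := Complex.I_ne_zero
    apply mul_right_cancel₀ hI
    linear_combination hn
  have h2 : ((a : ℝ) - b) = n * (2 * Real.pi) := by exact_mod_cast h1
  by_cases hn0 : n = 0
  · rw [hn0] at h2
    have : (a : ℝ) = b := by simpa [sub_eq_zero] using h2
    exact_mod_cast this
  · exfalso
    have hirr := irrational_pi
    apply hirr
    refine ⟨((a : ℚ) - b) / (2 * n), ?_⟩
    push_cast
    have hn' : (n : ℝ) ≠ 0 := by exact_mod_cast hn0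
    rw [h2]
    field_simp

lemma mat_rot11 (θ : ℝ) : mat (rot θ : SU11) 1 1 = Complex.exp (-(θ * Complex.I)) := rfl

lemma isLieAction_lieP : IsLieAction lieP := ⟨lieP_add, lieP_smul, lieP_bracket⟩

lemma actP_locally_finite (v : Polynomial ℂ) :
    FiniteDimensional ℂ (Submodule.span ℂ (Set.range fun k => actP k v)) := by
  let S : Finset (Polynomial ℂ) := v.support.image fun i => Polynomial.monomial i (v.coeff i)
  have hle : Submodule.span ℂ (Set.range fun k => actP k v) ≤
      Submodule.span ℂ (S : Set (Polynomial ℂ)) := by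
    rw [Submodule.span_le]
    rintro _ ⟨k, rfl⟩
    simp only [actP_apply, scal_eq_sum]
    refine Submodule.sum_mem _ fun i hi => Submodule.smul_mem _ _ (Submodule.subset_span ?_)
    exact Finset.mem_coe.2 (Finset.mem_image_of_mem _ hi)
  have : FiniteDimensional ℂ (Submodule.span ℂ (S : Set (Polynomial ℂ))) :=
    FiniteDimensional.span_finset ℂ S
  exact Submodule.finiteDimensional_of_le hle

lemma continuous_toG : Continuous K.toG := continuous_subtype_val

lemma isKAction_actP : IsKAction fun k => actP k := by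
  refine ⟨fun v => DFunLike.congr_fun (map_one actP) v,
    fun k l v => DFunLike.congr_fun (map_mul actP k l) v, actP_locally_finite, fun v φ => ?_⟩
  simp only [actP_apply, scal_eq_sum, map_sum, map_smul]
  have h1 : Continuous fun k : K => mat (k : SU11) 1 1 :=
    (continuous_entry 1 1).comp continuous_toG
  fun_prop

lemma isDifferential : IsDifferential lieP fun k => actP k := by
  intro X γ hγ v φ
  have hd : ∀ i j, HasDerivAt (fun t : ℝ => mat (γ t : SU11) i j) ((X : M2) i j) 0 := by
    intro i j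
    have h := hasDerivAt_exp_entry (X : M2) 0 i j
    simp only [zero_smul, NormedSpace.exp_zero, Matrix.one_mul] at h
    convert! h using 2
    rename_i t
    rw [hγ t]
    rfl
  have h01 : (X : M2) 0 1 = 0 := by
    refine (hd 0 1).unique ?_
    convert! hasDerivAt_const (0 : ℝ) (0 : ℂ) using 2
    rename_i t
    exact (K_entry (γ t)).1
  have h10 : (X : M2) 1 0 = 0 := by
    refine (hd 1 0).unique ?_
    convert! hasDerivAt_const (0 : ℝ) (0 : ℂ) using 2
    rename_i t
    exact (K_entry (γ t)).2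
  have htr : (X : M2) 0 0 = -(X : M2) 1 1 := by
    have : (X : M2).trace = 0 := X.2.2
    rw [Matrix.trace_fin_two] at this
    linear_combination this
  have hγ0 : mat (γ 0 : SU11) 1 1 = 1 := by
    rw [hγ 0, zero_smul, expG_zero, mat_one]; simp
  have hlie : lieP X v = ∑ i ∈ v.support, (2 * i * (X : M2) 1 1) •
      Polynomial.monomial i (v.coeff i) := by
    ext n
    have hv : vf X = Polynomial.C (2 * (X : M2) 1 1) * Polynomial.X := by
      rw [vf, h01, h10, htr]
      simp only [map_zero, zero_mul, map_sub, map_neg, map_mul]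
      rw [show (2 : ℂ) = 1 + 1 by norm_num, map_add, map_one]
      ring
    simp only [Polynomial.finsetSum_coeff, Polynomial.coeff_smul, Polynomial.coeff_monomial,
      smul_eq_mul, mul_ite, mul_zero]
    rw [Finset.sum_ite_eq', lieP_apply, hv, mul_assoc, Polynomial.coeff_C_mul]
    rcases n with _ | n
    · simp
    · rw [Polynomial.coeff_X_mul, Polynomial.coeff_derivative]
      split_ifs with h
      · push_cast; ring
      · rw [Polynomial.notMem_support_iff.1 h]; ring
  rw [hlie]
  simp only [actP_apply, scal_eq_sum, map_sum, map_smul]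
  refine HasDerivAt.fun_sum fun i _ => ?_
  have h1 : HasDerivAt (fun t : ℝ => (mat (γ t : SU11) 1 1 ^ 2) ^ i) (2 * i * (X : M2) 1 1) 0 := by
    have := ((hd 1 1).fun_pow 2).fun_pow i
    convert! this using 1
    rw [hγ0]
    simp
    ring
  exact h1.smul_const _

/-- The `(𝔤, K)`-module of polynomials on the disc. -/
noncomputable def Mod : GKModule (Polynomial ℂ) where
  lie := lieP
  act := fun k => actP k
  isLieAction := isLieAction_lieP
  isKAction := isKAction_actP
  adCompatible := actP_lieP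
  isDifferential := isDifferential

end Pool.Agent.Lib.MP_a304db_al
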