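import Pool.Agent.Lib.MP_a304db_al.Meas

set_option autoImplicit false

open Matrix Topology Metric MeasureTheory
open scoped ENNReal NNReal ComplexConjugate

namespace Pool.Agent.Lib.MP_a304db_al

/-- The coordinate function on the closed disc. -/
def idC : C(Dsk, ℂ) := ⟨Subtype.val, continuous_subtype_val⟩

/-- Polynomials as continuous functions on the closed disc. -/
noncomputable def poly : Polynomial ℂ →ₐ[ℂ] C(Dsk, ℂ) := Polynomial.aeval idC

lemma poly_apply (f : Polynomial ℂ) (z : Dsk) : poly f z = f.eval (z : ℂ) := by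
  induction f using Polynomial.induction_on' with
  | add p q hp hq => simp [hp, hq]
  | monomial n a => simp [poly, Polynomial.aeval_monomial, idC, Algebra.algebraMap_eq_smul_one]

/-- Composition with `g⁻¹`. -/
noncomputable def compA (g : SU11) : C(Dsk, ℂ) →ₐ[ℂ] C(Dsk, ℂ) :=
  ContinuousMap.compRightAlgHom ℂ ℂ ⟨mobD g⁻¹, continuous_mobD g⁻¹⟩

lemma compA_apply (g : SU11) (F : C(Dsk, ℂ)) (z : Dsk) : compA g F z = F (mobD g⁻¹ z) := rfl

lemma continuous_compA (g : SU11) : Continuous (compA g) :=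
  ContinuousMap.compRightAlgHom_continuous ℂ ℂ _

lemma compA_mul (g h : SU11) (F : C(Dsk, ℂ)) : compA (g * h) F = compA g (compA h F) := by
  ext z
  simp only [compA_apply, _root_.mul_inv_rev, mobD_mul]

lemma compA_one (F : C(Dsk, ℂ)) : compA 1 F = F := by
  ext z
  simp only [compA_apply, inv_one, mobD_one]

/-- The disc algebra: the closure of the polynomials. -/
noncomputable def P : Subalgebra ℂ C(Dsk, ℂ) := poly.range.topologicalClosure

lemma poly_mem (f : Polynomial ℂ) : poly f ∈ P :=
  Subalgebra.le_topologicalClosure _ ⟨f, rfl⟩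

lemma isClosed_P : IsClosed (P : Set C(Dsk, ℂ)) := Subalgebra.isClosed_topologicalClosure _

instance : CompleteSpace P := isClosed_P.completeSpace_coe

lemma norm_idC_le : ‖idC‖ ≤ 1 := by
  rw [ContinuousMap.norm_le _ zero_le_one]
  intro z
  exact z.norm_le

/-- The Moebius map, as a complex-valued continuous function. -/
noncomputable def mobF (g : SU11) : C(Dsk, ℂ) := ⟨fun z => mobC g z,
  continuous_subtype_val.comp (continuous_mobD g)⟩

/-- The denominator as a continuous function. -/
noncomputable def denF (g : SU11) : C(Dsk, ℂ) := ⟨fun z => den g z, by unfold den; fun_prop⟩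

lemma denF_eq (g : SU11) : denF g = poly (Polynomial.C (mat g 1 0) * Polynomial.X +
    Polynomial.C (mat g 1 1)) := by
  ext z
  rw [poly_apply]
  simp [denF, den]

lemma exists_inv_den (g : SU11) : ∃ u ∈ P, u * denF g = 1 := by
  have ha : mat g 1 1 ≠ 0 := by
    have := norm_lt g
    rw [mat11]
    intro h
    rw [map_eq_zero] at h
    rw [h, norm_zero] at this
    exact absurd this (not_lt.2 (norm_nonneg _))
  let t : P := ⟨poly (Polynomial.C (-(mat g 1 0 / mat g 1 1)) * Polynomial.X), poly_mem _⟩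
  have ht : ‖t‖ < 1 := by
    change ‖poly (Polynomial.C (-(mat g 1 0 / mat g 1 1)) * Polynomial.X)‖ < 1
    have h1 : ‖poly (Polynomial.C (-(mat g 1 0 / mat g 1 1)) * Polynomial.X)‖ ≤
        ‖mat g 0 1‖ / ‖mat g 0 0‖ := by
      rw [ContinuousMap.norm_le _ (by positivity)]
      intro z
      rw [poly_apply]
      simp only [Polynomial.eval_mul, Polynomial.eval_C, Polynomial.eval_X, norm_mul, norm_neg,
        norm_div, mat10, mat11, RCLike.norm_conj]
      have := z.norm_le
      have h0 : 0 ≤ ‖mat g 0 1‖ / ‖mat g 0 0‖ := by positivity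
      nlinarith
    refine lt_of_le_of_lt h1 ?_
    have h2 := norm_lt g
    rw [div_lt_one (lt_of_le_of_lt (norm_nonneg _) h2)]
    exact h2
  let u : Pˣ := Units.oneSub t ht
  refine ⟨((mat g 1 1)⁻¹ • ((u⁻¹ : Pˣ) : P) : P), Subtype.mem _, ?_⟩
  have hu : ((u⁻¹ : Pˣ) : P) * (1 - t) = 1 := u.inv_mul
  have hu' : (((u⁻¹ : Pˣ) : P) : C(Dsk, ℂ)) * (1 - (t : C(Dsk, ℂ))) = 1 :=
    congrArg Subtype.val hu
  have hd : denF g = mat g 1 1 • (1 - (t : C(Dsk, ℂ))) := by
    ext z
    change den g z = mat g 1 1 * (1 - poly (Polynomial.C (-(mat g 1 0 / mat g 1 1)) *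
      Polynomial.X) z)
    rw [poly_apply]
    simp only [Polynomial.eval_mul, Polynomial.eval_C, Polynomial.eval_X, den]
    field_simp
    ring
  change ((mat g 1 1)⁻¹ • (((u⁻¹ : Pˣ) : P) : C(Dsk, ℂ))) * denF g = 1
  rw [hd, smul_mul_smul_comm, hu', inv_mul_cancel₀ ha, one_smul]

lemma mobF_mem (g : SU11) : mobF g ∈ P := by
  obtain ⟨u, hu, h⟩ := exists_inv_den g
  have h1 : mobF g = poly (Polynomial.C (mat g 0 0) * Polynomial.X +
      Polynomial.C (mat g 0 1)) * u := by
    ext z
    have hz : u z * den g z = 1 := by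
      have := DFunLike.congr_fun h z
      simpa [denF] using this
    have h0 := den_ne_zero g z.norm_le
    rw [ContinuousMap.mul_apply, poly_apply]
    change mobC g z = _
    rw [mobC, div_eq_iff h0, mul_assoc, hz]
    simp
  rw [h1]
  exact P.mul_mem (poly_mem _) hu

lemma compA_poly (g : SU11) (f : Polynomial ℂ) :
    compA g (poly f) = Polynomial.aeval (mobF g⁻¹) f := by
  have : (compA g).comp poly = Polynomial.aeval (mobF g⁻¹) := by
    apply Polynomial.algHom_ext
    simp only [AlgHom.coe_comp, Function.comp_apply, Polynomial.aeval_X, poly]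
    rfl
  exact DFunLike.congr_fun this f

lemma compA_mem (g : SU11) {F : C(Dsk, ℂ)} (hF : F ∈ P) : compA g F ∈ P := by
  have h1 : Set.MapsTo (compA g) (poly.range : Set C(Dsk, ℂ)) (P : Set C(Dsk, ℂ)) := by
    rintro _ ⟨f, rfl⟩
    change compA g (poly f) ∈ P
    rw [compA_poly]
    have h3 : Algebra.adjoin ℂ {mobF g⁻¹} ≤ P :=
      Algebra.adjoin_le (Set.singleton_subset_iff.2 (mobF_mem g⁻¹))
    exact h3 (Polynomial.aeval_mem_adjoin_singleton ℂ (mobF g⁻¹))
  have h2 := h1.closure (continuous_compA g)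
  rw [isClosed_P.closure_eq] at h2
  exact h2 hF

end Pool.Agent.Lib.MP_a304db_al
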