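import Pool.Agent.Lib.MP_a304db_al.Comp

set_option autoImplicit false

open Matrix Topology Metric MeasureTheory Set
open scoped ENNReal NNReal ComplexConjugate InnerProductSpace

namespace Pool.Agent.Lib.MP_a304db_al

lemma inv_den_le (g : SU11) {z : ℂ} (hz : ‖z‖ ≤ 1) : 1 / ‖den g z‖ ≤ nrm g := by
  have h0 := norm_den_pos g hz
  rw [div_le_iff₀ h0]
  exact one_le_nrm_mul_den g hz

lemma inv_den_pow_le (g : SU11) {z : ℂ} (hz : ‖z‖ ≤ 1) : 1 / ‖den g z‖ ^ 4 ≤ nrm g ^ 4 := by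
  have h0 := norm_den_pos g hz
  have h1 := inv_den_le g hz
  rw [← _root_.one_div_pow]
  exact pow_le_pow_left₀ (by positivity) h1 4

lemma wt_one : Wt 1 where
  meas := measurable_one
  rot := fun _ _ _ => rfl
  fin := by
    simp only [Pi.one_apply, lintegral_one, Measure.restrict_apply_univ]
    exact measure_ball_lt_top
  one_le := fun _ _ => le_rfl
  quasi := by
    intro g z hz
    simp only [Pi.one_apply, mul_one]
    apply ENNReal.ofReal_le_ofReal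
    refine (inv_den_pow_le g hz.le).trans ?_
    exact pow_le_pow_right₀ (one_le_nrm g) (by norm_num)

instance : Fact (Wt 1) := ⟨wt_one⟩

/-- The logarithmic weight `1 - log (1 - |z|²)`, as a power series. -/
noncomputable def rhoL (z : ℂ) : ℝ≥0∞ :=
  1 + ∑' k : ℕ, ENNReal.ofReal (1 / (k + 1)) * ‖z‖ₑ ^ (2 * (k + 1))

lemma measurable_rhoL : Measurable rhoL := by
  unfold rhoL
  have h : ∀ k : ℕ, Measurable fun z : ℂ =>
      ENNReal.ofReal (1 / (k + 1)) * ‖z‖ₑ ^ (2 * (k + 1)) := fun k => by fun_prop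
  exact measurable_const.add (Measurable.tsum (L := SummationFilter.unconditional ℕ) h)

lemma rhoL_eq {z : ℂ} (hz : ‖z‖ < 1) :
    rhoL z = ENNReal.ofReal (1 - Real.log (1 - ‖z‖ ^ 2)) := by
  have hx : |‖z‖ ^ 2| < 1 := by
    rw [abs_of_nonneg (by positivity)]
    have := norm_nonneg z
    nlinarith
  have h := Real.hasSum_pow_div_log_of_abs_lt_one hx
  have h1 : ∀ k : ℕ, ENNReal.ofReal (1 / (k + 1)) * ‖z‖ₑ ^ (2 * (k + 1)) =
      ENNReal.ofReal ((‖z‖ ^ 2) ^ (k + 1) / (k + 1)) := by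
    intro k
    rw [← ofReal_norm, ← ENNReal.ofReal_pow (norm_nonneg _),
      ← ENNReal.ofReal_mul (by positivity), pow_mul]
    congr 1
    ring
  unfold rhoL
  simp only [h1]
  rw [← ENNReal.ofReal_tsum_of_nonneg (fun k => by positivity) h.summable, h.tsum_eq,
    ← ENNReal.ofReal_one, ← ENNReal.ofReal_add zero_le_one]
  · rfl
  · rw [← h.tsum_eq]
    exact tsum_nonneg fun k => by positivity

lemma one_add_two_log_le {t : ℝ} (ht : 0 < t) : 1 + 2 * Real.log t ≤ t ^ 2 := by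
  have h := Real.log_le_sub_one_of_pos (show 0 < t ^ 2 by positivity)
  rw [Real.log_pow] at h
  push_cast at h
  linarith

lemma log_quasi (g : SU11) (z : ℂ) (hz : ‖z‖ < 1) :
    1 / ‖den g z‖ ^ 4 * (1 - Real.log (1 - ‖mobC g z‖ ^ 2)) ≤
      nrm g ^ 6 * (1 - Real.log (1 - ‖z‖ ^ 2)) := by
  have h0 := norm_den_pos g hz.le
  have hz2 : 0 < 1 - ‖z‖ ^ 2 := by
    have := norm_nonneg z
    nlinarith
  have hlog : Real.log (1 - ‖z‖ ^ 2) ≤ 0 :=
    Real.log_nonpos hz2.le (by have := sq_nonneg ‖z‖; linarith)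
  have hn := one_le_nrm g
  rw [one_sub_normSq_mob g hz.le, Real.log_div hz2.ne' (by positivity), Real.log_pow]
  push_cast
  have h1 : 1 - (Real.log (1 - ‖z‖ ^ 2) - 2 * Real.log ‖den g z‖) ≤
      nrm g ^ 2 * (1 - Real.log (1 - ‖z‖ ^ 2)) := by
    have h2 : 1 + 2 * Real.log ‖den g z‖ ≤ nrm g ^ 2 := by
      have h3 := one_add_two_log_le (t := nrm g) (by linarith)
      have h4 := Real.log_le_log h0 (norm_den_le g hz.le)
      linarith
    have h7 : 0 ≤ (nrm g ^ 2 - 1) * (-Real.log (1 - ‖z‖ ^ 2)) :=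
      mul_nonneg (by nlinarith) (by linarith)
    nlinarith
  have h5 := inv_den_pow_le g hz.le
  have h6 : 0 ≤ nrm g ^ 2 * (1 - Real.log (1 - ‖z‖ ^ 2)) := by
    apply mul_nonneg (by positivity); linarith
  calc 1 / ‖den g z‖ ^ 4 * (1 - (Real.log (1 - ‖z‖ ^ 2) - 2 * Real.log ‖den g z‖))
      ≤ 1 / ‖den g z‖ ^ 4 * (nrm g ^ 2 * (1 - Real.log (1 - ‖z‖ ^ 2))) := by gcongr
    _ ≤ nrm g ^ 4 * (nrm g ^ 2 * (1 - Real.log (1 - ‖z‖ ^ 2))) := by gcongr
    _ = nrm g ^ 6 * (1 - Real.log (1 - ‖z‖ ^ 2)) := by ring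

lemma II_rhoL (n : ℕ) : II rhoL n = II 1 n +
    ∑' k : ℕ, ENNReal.ofReal (1 / (k + 1)) * II 1 (n + k + 1) := by
  unfold II rhoL
  simp only [add_mul, Pi.one_apply, one_mul]
  rw [lintegral_add_left (by fun_prop)]
  congr 1
  simp only [← ENNReal.tsum_mul_right]
  rw [lintegral_tsum (fun k => by fun_prop)]
  refine tsum_congr fun k => ?_
  rw [← lintegral_const_mul _ (by fun_prop)]
  refine lintegral_congr fun z => ?_
  rw [mul_assoc, ← pow_add]
  congr 2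
  ring

lemma term_eq (n k : ℕ) : ENNReal.ofReal (1 / (k + 1)) * II 1 (n + k + 1) =
    ENNReal.ofReal (Real.pi * (1 / ((k + 1) * (n + k + 2)))) := by
  rw [II_one, ← ENNReal.ofReal_mul (by positivity)]
  congr 1
  push_cast
  field_simp
  ring

lemma summable_Z {ε : ℝ} (hε : 0 < ε) :
    Summable fun k : ℕ => (1 / ((k : ℝ) + 1) ^ (1 + ε)) := by
  have h := (Real.summable_nat_rpow_inv (p := 1 + ε)).2 (by linarith)
  have h2 := (summable_nat_add_iff 1).2 h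
  refine h2.congr fun k => ?_
  push_cast
  rw [one_div]

lemma term_le {ε : ℝ} (hε : 0 < ε) (hε1 : ε ≤ 1) (n k : ℕ) :
    1 / (((k : ℝ) + 1) * (n + k + 2)) ≤
      ((n : ℝ) + 1) ^ ε / (n + 1) * (1 / ((k : ℝ) + 1) ^ (1 + ε)) := by
  have hk : 0 < (k : ℝ) + 1 := by positivity
  have hn : 0 < (n : ℝ) + 1 := by positivity
  have hnk : 0 < (n : ℝ) + k + 2 := by positivity
  have h1 : ((k : ℝ) + 1) ^ ε * (((n : ℝ) + 1) / ((n : ℝ) + 1) ^ ε) ≤ n + k + 2 := by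
    have e1 : ((n : ℝ) + 1) / ((n : ℝ) + 1) ^ ε = ((n : ℝ) + 1) ^ (1 - ε) := by
      rw [Real.rpow_sub hn, Real.rpow_one]
    rw [e1]
    calc ((k : ℝ) + 1) ^ ε * ((n : ℝ) + 1) ^ (1 - ε)
        ≤ ((n : ℝ) + k + 2) ^ ε * ((n : ℝ) + k + 2) ^ (1 - ε) := by
          gcongr <;> linarith [Nat.cast_nonneg (α := ℝ) n, Nat.cast_nonneg (α := ℝ) k]
      _ = n + k + 2 := by
          rw [← Real.rpow_add hnk]
          simp
  rw [Real.rpow_add hk, Real.rpow_one]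
  have hA : 0 < ((n : ℝ) + 1) ^ ε := by positivity
  have hB : 0 < ((k : ℝ) + 1) ^ ε := by positivity
  have h2 : ((n : ℝ) + 1) ^ ε / (n + 1) * (1 / (((k : ℝ) + 1) * ((k : ℝ) + 1) ^ ε)) =
      1 / (((k : ℝ) + 1) * (((k : ℝ) + 1) ^ ε * (((n : ℝ) + 1) / ((n : ℝ) + 1) ^ ε))) := by
    field_simp
  rw [h2]
  gcongr

lemma II_rhoL_le {ε : ℝ} (hε : 0 < ε) (hε1 : ε ≤ 1) (n : ℕ) :
    II rhoL n ≤ ENNReal.ofReal ((1 + ∑' k : ℕ, (1 / ((k : ℝ) + 1) ^ (1 + ε))) *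
      ((n : ℝ) + 1) ^ ε * (Real.pi / (n + 1))) := by
  have hZ : 0 ≤ ∑' k : ℕ, (1 / ((k : ℝ) + 1) ^ (1 + ε)) := tsum_nonneg fun k => by positivity
  have hs : Summable fun k : ℕ => Real.pi * (((n : ℝ) + 1) ^ ε / (n + 1) *
      (1 / ((k : ℝ) + 1) ^ (1 + ε))) := ((summable_Z hε).mul_left _).mul_left _
  rw [II_rhoL]
  simp only [term_eq]
  have h1 : ∑' k : ℕ, ENNReal.ofReal (Real.pi * (1 / (((k : ℝ) + 1) * (n + k + 2)))) ≤
      ENNReal.ofReal (Real.pi * (((n : ℝ) + 1) ^ ε / (n + 1) *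
        ∑' k : ℕ, (1 / ((k : ℝ) + 1) ^ (1 + ε)))) := by
    rw [← tsum_mul_left, ← tsum_mul_left, ENNReal.ofReal_tsum_of_nonneg (fun k => by positivity) hs]
    refine ENNReal.tsum_le_tsum fun k => ENNReal.ofReal_le_ofReal ?_
    exact mul_le_mul_of_nonneg_left (term_le hε hε1 n k) Real.pi_pos.le
  rw [II_one]
  refine (add_le_add le_rfl h1).trans ?_
  rw [← ENNReal.ofReal_add (by positivity) (by positivity)]
  apply ENNReal.ofReal_le_ofReal
  have h2 : 1 ≤ ((n : ℝ) + 1) ^ ε := Real.one_le_rpow (by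
    have := Nat.cast_nonneg (α := ℝ) n; linarith) hε.le
  have h3 : Real.pi / ((n : ℝ) + 1) ≤ ((n : ℝ) + 1) ^ ε * (Real.pi / ((n : ℝ) + 1)) :=
    le_mul_of_one_le_left (by positivity) h2
  calc Real.pi / ((n : ℝ) + 1) + Real.pi * (((n : ℝ) + 1) ^ ε / (n + 1) *
        ∑' k : ℕ, (1 / ((k : ℝ) + 1) ^ (1 + ε)))
      ≤ ((n : ℝ) + 1) ^ ε * (Real.pi / ((n : ℝ) + 1)) + Real.pi * (((n : ℝ) + 1) ^ ε / (n + 1) *
        ∑' k : ℕ, (1 / ((k : ℝ) + 1) ^ (1 + ε))) := by gcongr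
    _ = _ := by ring

lemma le_II_rhoL (n : ℕ) :
    ENNReal.ofReal ((1 / 2) * (∑ k ∈ Finset.range n, (1 / ((k : ℝ) + 1))) *
      (Real.pi / (n + 1))) ≤ II rhoL n := by
  rw [II_rhoL]
  refine le_trans ?_ le_add_self
  simp only [term_eq]
  refine le_trans ?_ (ENNReal.sum_le_tsum (Finset.range n))
  rw [← ENNReal.ofReal_sum_of_nonneg (fun k _ => by positivity)]
  apply ENNReal.ofReal_le_ofReal
  rw [mul_assoc, mul_comm, Finset.sum_mul, Finset.sum_mul]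
  refine Finset.sum_le_sum fun k hk => ?_
  have hk' : (k : ℝ) + 1 ≤ n := by exact_mod_cast Finset.mem_range.1 hk
  have hk0 : 0 < (k : ℝ) + 1 := by positivity
  have h1 : (1 / ((k : ℝ) + 1)) * (Real.pi / (n + 1)) * (1 / 2) =
      Real.pi * (1 / (((k : ℝ) + 1) * (2 * (n + 1)))) := by
    field_simp
  rw [h1]
  gcongr
  linarith

lemma wt_rhoL : Wt rhoL where
  meas := measurable_rhoL
  rot := by
    intro u z hu
    unfold rhoL
    have : ‖u * z‖ₑ = ‖z‖ₑ := by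
      rw [← ofReal_norm, ← ofReal_norm, norm_mul, hu, one_mul]
    rw [this]
  fin := by
    have h := II_rhoL_le one_pos le_rfl 0
    refine lt_of_le_of_lt ?_ (lt_of_le_of_lt h ENNReal.ofReal_lt_top)
    unfold II
    simp
  one_le := fun z _ => le_self_add
  quasi := by
    intro g z hz
    rw [rhoL_eq hz, rhoL_eq (norm_mob_lt g hz), ← ENNReal.ofReal_mul (by positivity),
      ← ENNReal.ofReal_mul (by have := nrm_pos g; positivity)]
    exact ENNReal.ofReal_le_ofReal (log_quasi g z hz)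

instance : Fact (Wt rhoL) := ⟨wt_rhoL⟩

end Pool.Agent.Lib.MP_a304db_al
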